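import Mathlib

/-!
Discretisation of a probability measure on the line: a monotone cell index whose cells are
single points or have small mass, and the resulting bracketing of lower sets.
-/

set_option autoImplicit false
open MeasureTheory Set

namespace Pool.Agent.MP_507a17_nt.H70

/-- For a probability measure `ν` on `ℝ` and `K ≥ 1` there is a measurable cell index `c ≤ 2 K`
such that every lower set `A` lies between two sublevel sets of `c` whose difference has mass at
most `1 / K`. -/
theorem bracket (ν : Measure ℝ) [IsProbabilityMeasure ν] (K : ℕ) (hK : 0 < K) :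
    ∃ c : ℝ → ℕ, Measurable c ∧ (∀ z, c z ≤ 2 * K) ∧
      ∀ A : Set ℝ, IsLowerSet A → ∃ a b : ℕ, a ≤ 2 * K + 1 ∧ b ≤ 2 * K + 1 ∧
        (∀ z, c z < a → z ∈ A) ∧ (∀ z ∈ A, c z < b) ∧
        ν.real {z | a ≤ c z ∧ c z < b} ≤ 1 / K := by
  classical
  have hK' : (0 : ℝ) < K := by exact_mod_cast hK
  set F : ℝ → ℝ := fun z => ν.real (Iio z) with hF
  set G : ℝ → ℝ := fun z => ν.real (Iic z) with hG
  have hFm : Monotone F := fun x y h => measureReal_mono (Iio_subset_Iio h)
  have hGm : Monotone G := fun x y h => measureReal_mono (Iic_subset_Iic.2 h)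
  have hF0 : ∀ z, 0 ≤ F z := fun z => measureReal_nonneg
  have hG0 : ∀ z, 0 ≤ G z := fun z => measureReal_nonneg
  have hF1 : ∀ z, F z ≤ 1 := fun z => measureReal_le_one
  have hG1 : ∀ z, G z ≤ 1 := fun z => measureReal_le_one
  have hGF : ∀ x y, x < y → G x ≤ F y := fun x y h => measureReal_mono (Iic_subset_Iio.2 h)
  set f : ℝ → ℕ := fun z => ⌊K * F z⌋₊ with hf
  set g : ℝ → ℕ := fun z => ⌊K * G z⌋₊ with hg
  have hfm : Monotone f := fun x y h =>
    Nat.floor_mono (mul_le_mul_of_nonneg_left (hFm h) hK'.le)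
  have hgm : Monotone g := fun x y h =>
    Nat.floor_mono (mul_le_mul_of_nonneg_left (hGm h) hK'.le)
  have hgf : ∀ x y, x < y → g x ≤ f y := fun x y h =>
    Nat.floor_mono (mul_le_mul_of_nonneg_left (hGF x y h) hK'.le)
  have hfK : ∀ z, f z ≤ K := fun z => by
    have : K * F z ≤ (K : ℝ) := by nlinarith [hF1 z]
    simpa [hf] using Nat.floor_mono this
  have hgK : ∀ z, g z ≤ K := fun z => by
    have : K * G z ≤ (K : ℝ) := by nlinarith [hG1 z]
    simpa [hg] using Nat.floor_mono this
  set c : ℝ → ℕ := fun z => f z + g z with hc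
  have hcm : Monotone c := hfm.add hgm
  have hcK : ∀ z, c z ≤ 2 * K := fun z => by
    have := hfK z; have := hgK z; simp only [hc]; omega
  have hmeas : Measurable c := hcm.measurable
  -- two points of one cell
  have hIcc : ∀ x y, x < y → c x = c y → ν.real (Icc x y) ≤ 1 / K := by
    intro x y hxy hcxy
    have h1 := hfm hxy.le
    have h2 := hgm hxy.le
    have h3 := hgf x y hxy
    have h4 : g y ≤ f x := by simp only [hc] at hcxy; omega
    have h5 : K * G y < g y + 1 := Nat.lt_floor_add_one _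
    have h6 : (f x : ℝ) ≤ K * F x := Nat.floor_le (mul_nonneg hK'.le (hF0 x))
    have h7 : (g y : ℝ) ≤ f x := by exact_mod_cast h4
    have h8 : ν.real (Icc x y) = G y - F x := by
      have : Icc x y = Iic y \ Iio x := by
        ext z; simp
      rw [this, measureReal_sdiff (Iio_subset_Iic_self.trans (Iic_subset_Iic.2 hxy.le))
        measurableSet_Iio]
    rw [h8, le_div_iff₀ hK']
    nlinarith
  have hcell : ∀ (a : ℕ) (x y : ℝ), x < y → c x = a → c y = a →
      ν.real {z | c z = a} ≤ 1 / K := by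
    intro a x y hxy hx hy
    have hms : MeasurableSet {z | c z = a} := hmeas (measurableSet_singleton a)
    have hle : ν {z | c z = a} ≤ ENNReal.ofReal (1 / K) := by
      rw [hms.measure_eq_iSup_isCompact]
      refine iSup_le fun T => iSup_le fun hT => iSup_le fun hTc => ?_
      rcases T.eq_empty_or_nonempty with rfl | hne
      · simp
      · obtain ⟨u, hu⟩ := hTc.exists_isLeast hne
        obtain ⟨w, hw⟩ := hTc.exists_isGreatest hne
        have hu' : c (min u x) = a := by
          rcases min_choice u x with h | h <;> rw [h]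
          exacts [hT hu.1, hx]
        have hw' : c (max w y) = a := by
          rcases max_choice w y with h | h <;> rw [h]
          exacts [hT hw.1, hy]
        have hlt : min u x < max w y := (min_le_right _ _).trans_lt (hxy.trans_le (le_max_right _ _))
        have h1 := hIcc _ _ hlt (hu'.trans hw'.symm)
        have hsub : T ⊆ Icc (min u x) (max w y) := fun z hz =>
          ⟨(min_le_left _ _).trans (hu.2 hz), (hw.2 hz).trans (le_max_left _ _)⟩
        refine (measure_mono hsub).trans ?_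
        rw [← ofReal_measureReal]
        exact ENNReal.ofReal_le_ofReal h1
    exact ENNReal.toReal_le_of_le_ofReal (by positivity) hle
  refine ⟨c, hmeas, hcK, fun A hA => ?_⟩
  set a := Nat.findGreatest (fun k => ∀ z, c z < k → z ∈ A) (2 * K + 1) with ha
  have ha1 : a ≤ 2 * K + 1 := Nat.findGreatest_le _
  have ha2 : ∀ z, c z < a → z ∈ A :=
    Nat.findGreatest_spec (P := fun k => ∀ z, c z < k → z ∈ A) (Nat.zero_le _)
      (fun z hz => absurd hz (Nat.not_lt_zero _))
  by_cases hb : ∀ z ∈ A, c z < a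
  · refine ⟨a, a, ha1, ha1, ha2, hb, ?_⟩
    have : {z | a ≤ c z ∧ c z < a} = ∅ := by
      ext z; simp
    rw [this]; simp
  · push Not at hb
    obtain ⟨z1, hz1, hz1'⟩ := hb
    have ha3 : a + 1 ≤ 2 * K + 1 := by have := hcK z1; omega
    have hng : ¬ ∀ z, c z < a + 1 → z ∈ A :=
      Nat.findGreatest_is_greatest (P := fun k => ∀ z, c z < k → z ∈ A) (Nat.lt_succ_self a) ha3
    push Not at hng
    obtain ⟨z0, hz0, hz0'⟩ := hng
    have hlt : ∀ z ∈ A, z < z0 := fun z hz => by
      by_contra hcon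
      exact hz0' (hA (not_lt.1 hcon) hz)
    have hc0 : c z0 = a := by
      have : ¬ c z0 < a := fun h => hz0' (ha2 z0 h)
      omega
    have hc1 : c z1 = a := by
      have := hcm (hlt z1 hz1).le
      omega
    refine ⟨a, a + 1, ha1, ha3, ha2, fun z hz => ?_, ?_⟩
    · have := hcm (hlt z hz).le
      omega
    · have : {z | a ≤ c z ∧ c z < a + 1} = {z | c z = a} := by
        ext z; simp only [mem_ofPred_eq]; omega
      rw [this]
      exact hcell a z1 z0 (hlt z1 hz1) hc1 hc0

/-- Discretisation of a probability measure on the cube. -/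
theorem discretize (d : ℕ) (μ : Measure (Fin d → ℝ)) [IsProbabilityMeasure μ]
    (hμ : μ (Icc (0 : Fin d → ℝ) 1)ᶜ = 0) (K L : ℕ) (hK : 0 < K) (hL : 2 * K + 1 ≤ 2 ^ L) :
    ∃ (m : (Fin d → Fin (2 ^ L)) → ℝ) (rep : (Fin d → Fin (2 ^ L)) → (Fin d → ℝ)),
      (∀ γ, 0 ≤ m γ) ∧ ∑ γ, m γ = 1 ∧ (∀ γ, rep γ ∈ Icc (0 : Fin d → ℝ) 1) ∧
      ∀ A : Fin d → Set ℝ, (∀ j, IsLowerSet (A j)) → ∃ a b : Fin d → Fin (2 ^ L + 1),
        (∀ γ, m γ ≠ 0 → (∀ j, (γ j : ℕ) < a j) → ∀ j, rep γ j ∈ A j) ∧
        (∀ γ, m γ ≠ 0 → (∀ j, rep γ j ∈ A j) → ∀ j, (γ j : ℕ) < b j) ∧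
        μ.real {z | ∀ j, z j ∈ A j} - d / K
          ≤ ∑ γ, m γ * (if ∀ j, (γ j : ℕ) < a j then (1 : ℝ) else 0) ∧
        ∑ γ, m γ * (if ∀ j, (γ j : ℕ) < b j then (1 : ℝ) else 0)
          ≤ μ.real {z | ∀ j, z j ∈ A j} + d / K := by
  classical
  have hprob : ∀ j : Fin d, IsProbabilityMeasure (μ.map (fun z : Fin d → ℝ => z j)) := fun j =>
    Measure.isProbabilityMeasure_map (measurable_pi_apply j).aemeasurable
  choose c hcm hcK hc using fun j : Fin d => bracket (μ.map (fun z : Fin d → ℝ => z j)) K hK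
  set cell : (Fin d → ℝ) → (Fin d → Fin (2 ^ L)) := fun z j =>
    ⟨c j (z j), by have := hcK j (z j); omega⟩ with hcell
  have hcj : ∀ j, Measurable fun z : Fin d → ℝ => c j (z j) := fun j =>
    (hcm j).comp (measurable_pi_apply j)
  have hfib : ∀ γ, MeasurableSet (cell ⁻¹' {γ}) := by
    intro γ
    have : cell ⁻¹' {γ} = ⋂ j, (fun z : Fin d → ℝ => c j (z j)) ⁻¹' {(γ j : ℕ)} := by
      ext z
      simp only [hcell, mem_preimage, mem_singleton_iff, mem_iInter, funext_iff, Fin.ext_iff]
    rw [this]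
    exact MeasurableSet.iInter fun j => hcj j (measurableSet_singleton _)
  set m : (Fin d → Fin (2 ^ L)) → ℝ := fun γ => μ.real (cell ⁻¹' {γ}) with hm
  have hsum : ∀ b : Fin d → ℕ, ∑ γ, m γ * (if ∀ j, (γ j : ℕ) < b j then (1 : ℝ) else 0)
      = μ.real {z | ∀ j, c j (z j) < b j} := by
    intro b
    simp only [mul_ite, mul_one, mul_zero]
    rw [← Finset.sum_filter, sum_measureReal_preimage_singleton _ (fun γ _ => hfib γ)]
    congr 1
    ext z
    simp [hcell]
  have hrep : ∀ γ, ∃ z ∈ Icc (0 : Fin d → ℝ) 1, m γ ≠ 0 → cell z = γ := by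
    intro γ
    by_cases h : m γ = 0
    · exact ⟨0, ⟨le_rfl, zero_le_one⟩, fun h' => absurd h h'⟩
    · by_contra hcon
      push Not at hcon
      have hsub : cell ⁻¹' {γ} ⊆ (Icc (0 : Fin d → ℝ) 1)ᶜ := fun z hz hz' => (hcon z hz').2 hz
      have : μ (cell ⁻¹' {γ}) = 0 := measure_mono_null hsub hμ
      exact h (by simp [hm, Measure.real, this])
  choose rep hrep1 hrep2 using hrep
  have hrep3 : ∀ γ, m γ ≠ 0 → ∀ j, c j (rep γ j) = γ j := by
    intro γ h j
    have := congrFun (hrep2 γ h) j
    exact congrArg Fin.val this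
  refine ⟨m, rep, fun γ => measureReal_nonneg, ?_, hrep1, fun A hA => ?_⟩
  · rw [sum_measureReal_preimage_singleton _ (fun γ _ => hfib γ)]
    simp
  · choose a b ha hb h1 h2 h3 using fun j => hc j (A j) (hA j)
    have hdiff : μ.real {z | ∀ j, c j (z j) < b j} ≤ μ.real {z | ∀ j, c j (z j) < a j} + d / K := by
      have hsub : {z : Fin d → ℝ | ∀ j, c j (z j) < b j} ⊆ {z | ∀ j, c j (z j) < a j}
          ∪ ⋃ j, {z | a j ≤ c j (z j) ∧ c j (z j) < b j} := by
        intro z hz
        by_cases h : ∀ j, c j (z j) < a j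
        · exact Or.inl h
        · push Not at h
          obtain ⟨j, hj⟩ := h
          exact Or.inr (mem_iUnion.2 ⟨j, hj, hz j⟩)
      refine (measureReal_mono hsub).trans ((measureReal_union_le _ _).trans ?_)
      refine add_le_add le_rfl ((measureReal_iUnion_fintype_le _).trans ?_)
      have : ∀ j, μ.real {z : Fin d → ℝ | a j ≤ c j (z j) ∧ c j (z j) < b j} ≤ 1 / K := by
        intro j
        have h := h3 j
        rw [map_measureReal_apply (measurable_pi_apply j)
          ((measurableSet_le measurable_const (hcm j)).inter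
            (measurableSet_lt (hcm j) measurable_const))] at h
        exact h
      refine (Finset.sum_le_sum fun j _ => this j).trans ?_
      simp [div_eq_mul_inv]
    have hl : μ.real {z : Fin d → ℝ | ∀ j, c j (z j) < a j} ≤ μ.real {z | ∀ j, z j ∈ A j} :=
      measureReal_mono fun z hz j => h1 j _ (hz j)
    have hu : μ.real {z : Fin d → ℝ | ∀ j, z j ∈ A j} ≤ μ.real {z | ∀ j, c j (z j) < b j} :=
      measureReal_mono fun z hz j => h2 j _ (hz j)
    refine ⟨fun j => ⟨a j, by have := ha j; omega⟩, fun j => ⟨b j, by have := hb j; omega⟩,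
      fun γ hγ h j => h1 j _ ?_, fun γ hγ h j => ?_, ?_, ?_⟩
    · rw [hrep3 γ hγ j]; exact h j
    · rw [← hrep3 γ hγ j]; exact h2 j _ (h j)
    · have := hsum a
      simp only at this ⊢
      rw [this]; linarith
    · have := hsum b
      simp only at this ⊢
      rw [this]; linarith

end Pool.Agent.MP_507a17_nt.H70
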