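import Mathlib

/-!
Prefix vector balancing with exponential weights.  Three Metropolis walks, each preserving the
Gaussian weight, are coupled so that their steps add up to `± v`.
-/

set_option autoImplicit false
open MeasureTheory Finset

namespace Pool.Agent.MP_507a17_nt.H70

variable {ι : Type} [Fintype ι]

/-- unnormalised Gaussian weight -/
noncomputable def rho (w : ι → ℝ) : ℝ := Real.exp (-(∑ i, w i ^ 2) / 2)

lemma rho_pos (w : ι → ℝ) : 0 < rho w := Real.exp_pos _

lemma continuous_rho : Continuous (rho : (ι → ℝ) → ℝ) := by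
  unfold rho; fun_prop

lemma integrable_rho : Integrable (rho : (ι → ℝ) → ℝ) := by
  have h : (rho : (ι → ℝ) → ℝ) = fun w => ∏ i, Real.exp (-(1 / 2) * w i ^ 2) := by
    funext w
    rw [rho, ← Real.exp_sum]
    congr 1
    rw [← Finset.mul_sum]; ring
  rw [h]
  exact Integrable.fintype_prod (f := fun _ (x : ℝ) => Real.exp (-(1 / 2) * x ^ 2))
    fun _ => integrable_exp_neg_mul_sq (by norm_num)

lemma rho_mul_exp (θ w : ι → ℝ) :
    rho w * Real.exp (∑ i, θ i * w i) = Real.exp ((∑ i, θ i ^ 2) / 2) * rho (w - θ) := by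
  unfold rho
  rw [← Real.exp_add, ← Real.exp_add]
  congr 1
  have : ∑ i, (w - θ) i ^ 2 = ∑ i, w i ^ 2 - 2 * ∑ i, θ i * w i + ∑ i, θ i ^ 2 := by
    rw [Finset.mul_sum, ← Finset.sum_sub_distrib, ← Finset.sum_add_distrib]
    refine Finset.sum_congr rfl fun i _ => ?_
    simp only [Pi.sub_apply]; ring
  rw [this]; ring

lemma integrable_rho_exp (θ : ι → ℝ) :
    Integrable (fun w : ι → ℝ => rho w * Real.exp (∑ i, θ i * w i)) := by
  simp_rw [rho_mul_exp]
  exact (integrable_rho.comp_sub_right θ).const_mul _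

lemma integral_rho_exp (θ : ι → ℝ) :
    ∫ w : ι → ℝ, rho w * Real.exp (∑ i, θ i * w i)
      = Real.exp ((∑ i, θ i ^ 2) / 2) * ∫ w : ι → ℝ, rho w := by
  simp_rw [rho_mul_exp]
  rw [integral_const_mul, integral_sub_right_eq_self]

/-- Metropolis probability of the step `+ v` -/
noncomputable def up (v w : ι → ℝ) : ℝ := min (rho w) (rho (w + v)) / (3 * rho w)

lemma continuous_up (v : ι → ℝ) : Continuous (up v) := by
  unfold up
  refine Continuous.div (continuous_rho.min (continuous_rho.comp (by fun_prop)))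
    (continuous_const.mul continuous_rho) fun w => ?_
  have := rho_pos w; positivity

lemma up_nonneg (v w : ι → ℝ) : 0 ≤ up v w := by
  unfold up
  have := rho_pos w; have := rho_pos (w + v); positivity

lemma up_le (v w : ι → ℝ) : up v w ≤ 1 / 3 := by
  unfold up
  have h := rho_pos w
  rw [div_le_iff₀ (by positivity)]
  have := min_le_left (rho w) (rho (w + v))
  linarith

lemma rho_mul_up (v w : ι → ℝ) : rho w * up v w = min (rho w) (rho (w + v)) / 3 := by
  unfold up
  have h := rho_pos w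
  field_simp

lemma balance (v w : ι → ℝ) : rho w * up v w = rho (w + v) * up (-v) (w + v) := by
  rw [rho_mul_up, rho_mul_up, add_neg_cancel_right, min_comm]

lemma up_add_up (v w : ι → ℝ) (hv : ∑ i, v i ^ 2 ≤ 1) : 1 / 3 ≤ up v w + up (-v) w := by
  have h := rho_pos w
  have key : ∀ u : ι → ℝ, rho (w + u)
      = rho w * Real.exp (-(∑ i, u i * w i) - (∑ i, u i ^ 2) / 2) := by
    intro u
    unfold rho
    rw [← Real.exp_add]
    congr 1
    have : ∑ i, (w + u) i ^ 2 = ∑ i, w i ^ 2 + 2 * ∑ i, u i * w i + ∑ i, u i ^ 2 := by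
      rw [Finset.mul_sum, ← Finset.sum_add_distrib, ← Finset.sum_add_distrib]
      refine Finset.sum_congr rfl fun i _ => ?_
      simp only [Pi.add_apply]; ring
    rw [this]; ring
  have h1 := key v
  have h2 := key (-v)
  simp only [Pi.neg_apply, neg_mul, Finset.sum_neg_distrib, neg_neg, even_two, Even.neg_pow] at h2
  have e1 := Real.add_one_le_exp (-(∑ i, v i * w i) - (∑ i, v i ^ 2) / 2)
  have e2 := Real.add_one_le_exp ((∑ i, v i * w i) - (∑ i, v i ^ 2) / 2)
  have hsum : rho w ≤ rho (w + v) + rho (w + -v) := by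
    rw [h1, h2]; nlinarith
  have p1 := rho_pos (w + v)
  have p2 := rho_pos (w + -v)
  have : rho w ≤ min (rho w) (rho (w + v)) + min (rho w) (rho (w + -v)) := by
    rcases le_total (rho w) (rho (w + v)) with a | a <;>
    rcases le_total (rho w) (rho (w + -v)) with b | b <;>
    simp only [min_eq_left, min_eq_right, a, b] <;> linarith
  unfold up
  rw [← add_div, le_div_iff₀ (by positivity)]
  linarith

/-- one step of the Metropolis kernel applied to a function -/
noncomputable def ker (v : ι → ℝ) (G : (ι → ℝ) → ℝ) (w : ι → ℝ) : ℝ :=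
  G w + (up v w * (G (w + v) - G w) + up (-v) w * (G (w + -v) - G w))

lemma continuous_ker (v : ι → ℝ) {G : (ι → ℝ) → ℝ} (hG : Continuous G) : Continuous (ker v G) := by
  unfold ker
  have h1 := continuous_up v
  have h2 := continuous_up (-v)
  fun_prop

lemma integrable_up_mul (v : ι → ℝ) {G : (ι → ℝ) → ℝ}
    (hi : Integrable fun w => rho w * G w) : Integrable fun w => up v w * (rho w * G w) := by
  refine hi.bdd_mul (c := 1 / 3) (continuous_up v).aestronglyMeasurable ?_
  refine Filter.Eventually.of_forall fun w => ?_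
  rw [Real.norm_eq_abs, abs_of_nonneg (up_nonneg v w)]
  exact up_le v w

lemma shift_eq (v : ι → ℝ) (G : (ι → ℝ) → ℝ) (w : ι → ℝ) :
    rho w * (up v w * G (w + v)) = up (-v) (w + v) * (rho (w + v) * G (w + v)) := by
  rw [← mul_assoc, balance]; ring

lemma ker_expand (v : ι → ℝ) (G : (ι → ℝ) → ℝ) (w : ι → ℝ) :
    rho w * ker v G w = rho w * G w
      + ((up (-v) (w + v) * (rho (w + v) * G (w + v)) - up (-v) w * (rho w * G w))
      + (up v (w + -v) * (rho (w + -v) * G (w + -v)) - up v w * (rho w * G w))) := by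
  have h1 := shift_eq v G w
  have h2 := shift_eq (-v) G w
  rw [neg_neg] at h2
  rw [← h1, ← h2, ker]; ring

lemma integrable_ker (v : ι → ℝ) {G : (ι → ℝ) → ℝ}
    (hi : Integrable fun w => rho w * G w) : Integrable fun w => rho w * ker v G w := by
  simp_rw [ker_expand]
  have h1 := integrable_up_mul v hi
  have h2 := integrable_up_mul (-v) hi
  exact hi.add (((h2.comp_add_right v).sub h2).add ((h1.comp_add_right (-v)).sub h1))

lemma integral_ker (v : ι → ℝ) {G : (ι → ℝ) → ℝ}
    (hi : Integrable fun w => rho w * G w) :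
    ∫ w, rho w * ker v G w = ∫ w, rho w * G w := by
  simp_rw [ker_expand]
  have h1 := integrable_up_mul v hi
  have h2 := integrable_up_mul (-v) hi
  have h3 : Integrable fun w => up (-v) (w + v) * (rho (w + v) * G (w + v)) := h2.comp_add_right v
  have h4 : Integrable fun w => up v (w + -v) * (rho (w + -v) * G (w + -v)) :=
    h1.comp_add_right (-v)
  have h5 : Integrable fun w => up (-v) (w + v) * (rho (w + v) * G (w + v))
      - up (-v) w * (rho w * G w) := h3.sub h2
  have h6 : Integrable fun w => up v (w + -v) * (rho (w + -v) * G (w + -v))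
      - up v w * (rho w * G w) := h4.sub h1
  have h7 : Integrable fun w => (up (-v) (w + v) * (rho (w + v) * G (w + v))
      - up (-v) w * (rho w * G w)) + (up v (w + -v) * (rho (w + -v) * G (w + -v))
      - up v w * (rho w * G w)) := h5.add h6
  rw [integral_add hi h7, integral_add h5 h6, integral_sub h3 h2, integral_sub h4 h1,
    integral_add_right_eq_self (fun w => up (-v) w * (rho w * G w)) v,
    integral_add_right_eq_self (fun w => up v w * (rho w * G w)) (-v)]
  ring

lemma vertex (u d A B : ℝ) (hu : u ≤ 1 / 3) (hd : d ≤ 1 / 3) (hs : 1 / 3 ≤ u + d) :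
    A / 3 ≤ u * A + d * B ∨ B / 3 ≤ u * A + d * B ∨ (A + B) / 3 ≤ u * A + d * B := by
  by_contra h
  push Not at h
  obtain ⟨h1, h2, h3⟩ := h
  have e : u * A + d * B = (1 - 3 * d) * (A / 3) + (1 - 3 * u) * (B / 3)
      + (3 * u + 3 * d - 1) * ((A + B) / 3) := by ring
  set S := u * A + d * B
  have a1 : (1 - 3 * d) * S ≤ (1 - 3 * d) * (A / 3) := mul_le_mul_of_nonneg_left h1.le (by linarith)
  have a2 : (1 - 3 * u) * S ≤ (1 - 3 * u) * (B / 3) := mul_le_mul_of_nonneg_left h2.le (by linarith)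
  have a3 : (3 * u + 3 * d - 1) * S ≤ (3 * u + 3 * d - 1) * ((A + B) / 3) :=
    mul_le_mul_of_nonneg_left h3.le (by linarith)
  rcases lt_or_eq_of_le hd with hd' | hd'
  · have : (1 - 3 * d) * S < (1 - 3 * d) * (A / 3) := mul_lt_mul_of_pos_left h1 (by linarith)
    linarith
  · rcases lt_or_eq_of_le hu with hu' | hu'
    · have : (1 - 3 * u) * S < (1 - 3 * u) * (B / 3) := mul_lt_mul_of_pos_left h2 (by linarith)
      linarith
    · have : (3 * u + 3 * d - 1) * S < (3 * u + 3 * d - 1) * ((A + B) / 3) :=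
        mul_lt_mul_of_pos_left h3 (by linarith)
      linarith

/-- The coupling of three Metropolis steps whose sum is `± v`. -/
lemma couple (v : ι → ℝ) (hv : ∑ i, v i ^ 2 ≤ 1) (G : (ι → ℝ) → ℝ) (a b c : ι → ℝ) :
    ∃ s t r : ℝ, (s + t + r = 1 ∨ s + t + r = -1) ∧
      G (a + s • v) + G (b + t • v) + G (c + r • v) ≤ ker v G a + ker v G b + ker v G c := by
  by_contra h
  push Not at h
  have h1 := h 1 0 0 (by norm_num)
  have h2 := h (-1) 0 0 (by norm_num)
  have h3 := h 0 1 0 (by norm_num)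
  have h4 := h 0 (-1) 0 (by norm_num)
  have h5 := h 0 0 1 (by norm_num)
  have h6 := h 0 0 (-1) (by norm_num)
  have h7 := h 1 1 (-1) (by norm_num)
  have h8 := h 1 (-1) 1 (by norm_num)
  have h9 := h (-1) 1 1 (by norm_num)
  have h10 := h (-1) (-1) 1 (by norm_num)
  have h11 := h (-1) 1 (-1) (by norm_num)
  have h12 := h 1 (-1) (-1) (by norm_num)
  simp only [one_smul, zero_smul, add_zero, neg_smul, ker] at h1 h2 h3 h4 h5 h6 h7 h8 h9 h10 h11 h12
  have va := vertex _ _ (G (a + v) - G a) (G (a + -v) - G a) (up_le v a) (up_le (-v) a)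
    (up_add_up v a hv)
  have vb := vertex _ _ (G (b + v) - G b) (G (b + -v) - G b) (up_le v b) (up_le (-v) b)
    (up_add_up v b hv)
  have vc := vertex _ _ (G (c + v) - G c) (G (c + -v) - G c) (up_le v c) (up_le (-v) c)
    (up_add_up v c hv)
  rcases va with va | va | va <;> rcases vb with vb | vb | vb <;> rcases vc with vc | vc | vc <;>
    linarith

lemma walk (n : ℕ) : ∀ (v : ℕ → ι → ℝ) (g : ℕ → (ι → ℝ) → ℝ), (∀ t, ∑ i, v t i ^ 2 ≤ 1) →
    (∀ t, Continuous (g t)) → (∀ t, Integrable fun w => rho w * g t w) →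
    ∃ G : (ι → ℝ) → ℝ, Continuous G ∧ (Integrable fun w => rho w * G w) ∧
      ∫ w, rho w * G w = ∑ t ∈ range (n + 1), ∫ w, rho w * g t w ∧
      ∀ a b c : ι → ℝ, ∃ s t r : ℕ → ℝ, (∀ k, s k + t k + r k = 1 ∨ s k + t k + r k = -1) ∧
        ∑ k ∈ range (n + 1), (g k (a + ∑ j ∈ range k, s j • v j) + g k (b + ∑ j ∈ range k, t j • v j)
          + g k (c + ∑ j ∈ range k, r j • v j)) ≤ G a + G b + G c := by
  induction n with
  | zero =>
    intro v g _ hc hi
    refine ⟨g 0, hc 0, hi 0, by simp, fun a b c => ⟨fun _ => 1, fun _ => 0, fun _ => 0, by simp, ?_⟩⟩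
    simp
  | succ n ih =>
    intro v g hv hc hi
    obtain ⟨G, hGc, hGi, hGe, hG⟩ := ih (fun t => v (t + 1)) (fun t => g (t + 1))
      (fun t => hv (t + 1)) (fun t => hc (t + 1)) (fun t => hi (t + 1))
    refine ⟨fun w => g 0 w + ker (v 0) G w, (hc 0).add (continuous_ker _ hGc), ?_, ?_, ?_⟩
    · simp_rw [mul_add]
      exact (hi 0).add (integrable_ker _ hGi)
    · simp_rw [mul_add]
      rw [integral_add (hi 0) (integrable_ker _ hGi), integral_ker _ hGi, hGe,
        Finset.sum_range_succ' _ (n + 1), add_comm]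
    · intro a b c
      obtain ⟨s0, t0, r0, h0, hle⟩ := couple (v 0) (hv 0) G a b c
      obtain ⟨s, t, r, h1, hle'⟩ := hG (a + s0 • v 0) (b + t0 • v 0) (c + r0 • v 0)
      refine ⟨fun k => Nat.casesOn k s0 s, fun k => Nat.casesOn k t0 t,
        fun k => Nat.casesOn k r0 r, ?_, ?_⟩
      · intro k
        cases k with
        | zero => exact h0
        | succ k => exact h1 k
      · have e : ∀ (x : ι → ℝ) (q0 : ℝ) (q : ℕ → ℝ) (k : ℕ),
            x + ∑ j ∈ range (k + 1), (Nat.casesOn j q0 q : ℝ) • v j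
              = x + q0 • v 0 + ∑ j ∈ range k, q j • v (j + 1) := by
          intro x q0 q k
          rw [Finset.sum_range_succ']
          simp only [Nat.rec_zero]
          abel
        rw [Finset.sum_range_succ' _ (n + 1)]
        simp only [e, Finset.range_zero, Finset.sum_empty, add_zero]
        linarith

/-- **Prefix balancing with exponential weights.** -/
theorem balancing {A : Type} [Fintype A] (v : ℕ → ι → ℝ) (hv : ∀ t, ∑ i, v t i ^ 2 ≤ 1)
    (u : A → ι → ℝ) (hu : ∀ a, ∑ i, u a i ^ 2 ≤ 1) (τ : A → ℕ) (W : A → ℝ) (hW : ∀ a, 0 ≤ W a) :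
    ∃ ε : ℕ → ℝ, (∀ k, ε k = 1 ∨ ε k = -1) ∧
      ∑ a, W a * Real.exp (∑ i, u a i * (∑ j ∈ range (τ a), ε j • v j) i)
        ≤ 6 * Real.exp 72 * ∑ a, W a := by
  classical
  obtain ⟨n, hn⟩ : ∃ n, ∀ a, τ a ≤ n := ⟨Finset.univ.sup τ, fun a => Finset.le_sup (mem_univ a)⟩
  set g : ℕ → (ι → ℝ) → ℝ := fun t w =>
    ∑ a, (if τ a = t then W a else 0) * Real.exp (∑ i, (4 * u a i) * w i) with hg
  set g' : (ι → ℝ) → ℝ := fun w => ∑ a, W a * Real.exp (∑ i, (-12 * u a i) * w i) with hg'
  have hint : ∀ (c : A → ℝ) (θ : A → ι → ℝ),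
      Integrable fun w : ι → ℝ => rho w * ∑ a, c a * Real.exp (∑ i, θ a i * w i) := by
    intro c θ
    simp_rw [Finset.mul_sum, mul_left_comm (rho _)]
    exact integrable_finsetSum _ fun a _ => (integrable_rho_exp (θ a)).const_mul _
  have hval : ∀ (c : A → ℝ) (θ : A → ι → ℝ),
      ∫ w : ι → ℝ, rho w * ∑ a, c a * Real.exp (∑ i, θ a i * w i)
        = ∑ a, c a * (Real.exp ((∑ i, θ a i ^ 2) / 2) * ∫ w : ι → ℝ, rho w) := by
    intro c θ
    simp_rw [Finset.mul_sum, mul_left_comm (rho _)]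
    rw [integral_finsetSum _ fun a _ => (integrable_rho_exp (θ a)).const_mul _]
    refine Finset.sum_congr rfl fun a _ => ?_
    rw [integral_const_mul, integral_rho_exp]
  obtain ⟨G, hGc, hGi, hGe, hG⟩ := walk n v g hv (fun t => by rw [hg]; fun_prop)
    (fun t => hint _ _)
  set Z : ℝ := ∫ w : ι → ℝ, rho w with hZ
  have hZ0 : 0 < Z := by
    rw [hZ, integral_pos_iff_support_of_nonneg (fun w => (rho_pos w).le) integrable_rho]
    have : Function.support (rho : (ι → ℝ) → ℝ) = Set.univ :=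
      Set.eq_univ_of_forall fun w => (rho_pos w).ne'
    rw [this]
    exact isOpen_univ.measure_pos _ Set.univ_nonempty
  have hexp : ∀ (c : ℝ) (a : A), c ^ 2 ≤ 144 →
      Real.exp ((∑ i, (c * u a i) ^ 2) / 2) ≤ Real.exp 72 := by
    intro c a hc
    apply Real.exp_le_exp.2
    simp_rw [mul_pow]
    rw [← Finset.mul_sum]
    have h0 : 0 ≤ ∑ i, u a i ^ 2 := Finset.sum_nonneg fun i _ => sq_nonneg _
    have := hu a
    nlinarith [sq_nonneg c]
  have hI1 : ∫ w, rho w * G w ≤ Real.exp 72 * Z * ∑ a, W a := by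
    rw [hGe]
    simp only [hg, hval]
    rw [Finset.sum_comm, Finset.mul_sum]
    refine Finset.sum_le_sum fun a _ => ?_
    rw [← Finset.sum_mul, Finset.sum_ite_eq, if_pos (mem_range.2 (Nat.lt_succ_of_le (hn a))),
      mul_comm]
    exact mul_le_mul_of_nonneg_right
      (mul_le_mul_of_nonneg_right (hexp 4 a (by norm_num)) hZ0.le) (hW a)
  have hI2 : ∫ w, rho w * g' w ≤ Real.exp 72 * Z * ∑ a, W a := by
    simp only [hg', hval]
    rw [Finset.mul_sum]
    refine Finset.sum_le_sum fun a _ => ?_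
    rw [mul_comm]
    exact mul_le_mul_of_nonneg_right
      (mul_le_mul_of_nonneg_right (hexp (-12) a (by norm_num)) hZ0.le) (hW a)
  have hi' : Integrable fun w => rho w * g' w := hint _ _
  obtain ⟨w, hw⟩ : ∃ w, G w + g' w ≤ 2 * Real.exp 72 * ∑ a, W a := by
    by_contra hcon
    push Not at hcon
    have hi2 : Integrable fun w => rho w * G w + rho w * g' w := hGi.add hi'
    have hi3 : Integrable fun w : ι → ℝ => (2 * Real.exp 72 * ∑ a, W a) * rho w :=
      integrable_rho.const_mul _
    have hpos : 0 < ∫ w, (rho w * G w + rho w * g' w - (2 * Real.exp 72 * ∑ a, W a) * rho w) := by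
      have hp : ∀ w : ι → ℝ,
          0 < rho w * G w + rho w * g' w - (2 * Real.exp 72 * ∑ a, W a) * rho w := by
        intro w
        have := mul_lt_mul_of_pos_left (hcon w) (rho_pos w)
        linarith
      rw [integral_pos_iff_support_of_nonneg (fun w => (hp w).le) (hi2.sub hi3)]
      have : Function.support (fun w : ι → ℝ =>
          rho w * G w + rho w * g' w - (2 * Real.exp 72 * ∑ a, W a) * rho w) = Set.univ :=
        Set.eq_univ_of_forall fun w => (hp w).ne'
      rw [this]
      exact isOpen_univ.measure_pos _ Set.univ_nonempty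
    rw [integral_sub hi2 hi3, integral_add hGi hi', integral_const_mul] at hpos
    linarith
  obtain ⟨s, t, r, h1, hle⟩ := hG w w w
  refine ⟨fun k => s k + t k + r k, h1, ?_⟩
  have hre : ∀ q : ℕ → ι → ℝ, ∑ k ∈ range (n + 1), g k (q k)
      = ∑ a, W a * Real.exp (∑ i, (4 * u a i) * q (τ a) i) := by
    intro q
    simp only [hg]
    rw [Finset.sum_comm]
    refine Finset.sum_congr rfl fun a _ => ?_
    simp only [ite_mul, zero_mul]
    rw [Finset.sum_ite_eq, if_pos (mem_range.2 (Nat.lt_succ_of_le (hn a)))]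
  rw [Finset.sum_add_distrib, Finset.sum_add_distrib, hre, hre, hre] at hle
  have hfin : ∀ a, W a * Real.exp (∑ i, u a i * (∑ j ∈ range (τ a), (s j + t j + r j) • v j) i)
      ≤ W a * Real.exp (∑ i, (4 * u a i) * (w + ∑ j ∈ range (τ a), s j • v j) i)
        + W a * Real.exp (∑ i, (4 * u a i) * (w + ∑ j ∈ range (τ a), t j • v j) i)
        + W a * Real.exp (∑ i, (4 * u a i) * (w + ∑ j ∈ range (τ a), r j • v j) i)
        + W a * Real.exp (∑ i, (-12 * u a i) * w i) := by
    intro a
    rw [← mul_add, ← mul_add, ← mul_add]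
    refine mul_le_mul_of_nonneg_left ?_ (hW a)
    set x1 := ∑ i, (4 * u a i) * (w + ∑ j ∈ range (τ a), s j • v j) i with hx1
    set x2 := ∑ i, (4 * u a i) * (w + ∑ j ∈ range (τ a), t j • v j) i with hx2
    set x3 := ∑ i, (4 * u a i) * (w + ∑ j ∈ range (τ a), r j • v j) i with hx3
    set x4 := ∑ i, (-12 * u a i) * w i with hx4
    have hx : 4 * ∑ i, u a i * (∑ j ∈ range (τ a), (s j + t j + r j) • v j) i
        = x1 + x2 + x3 + x4 := by
      rw [hx1, hx2, hx3, hx4, Finset.mul_sum, ← Finset.sum_add_distrib, ← Finset.sum_add_distrib,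
        ← Finset.sum_add_distrib]
      refine Finset.sum_congr rfl fun i _ => ?_
      simp only [add_smul, Finset.sum_add_distrib, Pi.add_apply]
      ring
    set x := ∑ i, u a i * (∑ j ∈ range (τ a), (s j + t j + r j) • v j) i
    have p1 := Real.exp_pos x1
    have p2 := Real.exp_pos x2
    have p3 := Real.exp_pos x3
    have p4 := Real.exp_pos x4
    have : x ≤ x1 ∨ x ≤ x2 ∨ x ≤ x3 ∨ x ≤ x4 := by
      by_contra hcon
      push Not at hcon
      linarith [hcon.1, hcon.2.1, hcon.2.2.1, hcon.2.2.2]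
    rcases this with h | h | h | h <;> have := Real.exp_le_exp.2 h <;> linarith
  refine (Finset.sum_le_sum fun a _ => hfin a).trans ?_
  rw [Finset.sum_add_distrib, Finset.sum_add_distrib, Finset.sum_add_distrib]
  have hg0 : 0 ≤ g' w := Finset.sum_nonneg fun a _ => mul_nonneg (hW a) (Real.exp_pos _).le
  have : ∑ a, W a * Real.exp (∑ i, (-12 * u a i) * w i) = g' w := rfl
  linarith

end Pool.Agent.MP_507a17_nt.H70
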