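import Pool.Agent.MP_507a17_nt.H70.Order

/-!
Dyadic factorisation of initial intervals and corners, rounding of a probability vector,
and a low-discrepancy finite sequence for a probability vector on a grid.
-/

set_option autoImplicit false
open Finset

namespace Pool.Agent.MP_507a17_nt.H70

lemma fact_one (L : ℕ) : ∃ (ι : Type) (_ : Fintype ι) (φ ψ : ℕ → ι → ℝ),
    (∀ x a, x < 2 ^ L → ∑ i, φ x i * ψ a i = if x < a then 1 else 0) ∧
    (∀ x, ∑ i, φ x i ^ 2 ≤ L + 1) ∧ (∀ a, ∑ i, ψ a i ^ 2 ≤ L + 1) := by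
  induction L with
  | zero =>
    refine ⟨Unit, inferInstance, fun _ _ => 1, fun a _ => if 0 < a then 1 else 0, ?_, ?_, ?_⟩
    · intro x a hx
      have : x = 0 := by omega
      subst this
      simp
    · intro x; simp
    · intro a; beta_reduce; split_ifs <;> simp
  | succ L ih =>
    obtain ⟨ι, _, φ, ψ, h1, h2, h3⟩ := ih
    refine ⟨(ι ⊕ ι) ⊕ Unit, inferInstance,
      fun x => if x < 2 ^ L then Sum.elim (Sum.elim (φ x) fun _ => 0) fun _ => 1
        else Sum.elim (Sum.elim (fun _ => 0) (φ (x - 2 ^ L))) fun _ => 0,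
      fun a => if a ≤ 2 ^ L then Sum.elim (Sum.elim (ψ a) fun _ => 0) fun _ => 0
        else Sum.elim (Sum.elim (fun _ => 0) (ψ (a - 2 ^ L))) fun _ => 1, ?_, ?_, ?_⟩
    · intro x a hx
      have hp : 2 ^ (L + 1) = 2 ^ L + 2 ^ L := by ring
      by_cases hx' : x < 2 ^ L <;> by_cases ha : a ≤ 2 ^ L
      · simp only [hx', ha, if_true, Fintype.sum_sum_type, Sum.elim_inl, Sum.elim_inr]
        simp [h1 x a hx']
      · simp only [hx', ha, if_true, if_false, Fintype.sum_sum_type, Sum.elim_inl, Sum.elim_inr]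
        have : x < a := by omega
        simp [this]
      · simp only [hx', ha, if_true, if_false, Fintype.sum_sum_type, Sum.elim_inl, Sum.elim_inr]
        have : ¬ x < a := by omega
        simp [this]
      · simp only [hx', ha, if_false, Fintype.sum_sum_type, Sum.elim_inl, Sum.elim_inr]
        have h := h1 (x - 2 ^ L) (a - 2 ^ L) (by omega)
        have e : (x - 2 ^ L < a - 2 ^ L) ↔ x < a := by omega
        simp [h, e]
    · intro x
      have a := h2 x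
      have b := h2 (x - 2 ^ L)
      by_cases hx' : x < 2 ^ L
      · simp only [hx', if_true, Fintype.sum_sum_type, Sum.elim_inl, Sum.elim_inr]
        simp; linarith
      · simp only [hx', if_false, Fintype.sum_sum_type, Sum.elim_inl, Sum.elim_inr]
        simp; linarith
    · intro x
      have a := h3 x
      have b := h3 (x - 2 ^ L)
      by_cases hx' : x ≤ 2 ^ L
      · simp only [hx', if_true, Fintype.sum_sum_type, Sum.elim_inl, Sum.elim_inr]
        simp; linarith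
      · simp only [hx', if_false, Fintype.sum_sum_type, Sum.elim_inl, Sum.elim_inr]
        simp; linarith

lemma fact_pi (L e : ℕ) : ∃ (ι : Type) (_ : Fintype ι) (φ ψ : (Fin e → ℕ) → ι → ℝ),
    (∀ x a, (∀ j, x j < 2 ^ L) → ∑ i, φ x i * ψ a i = if ∀ j, x j < a j then 1 else 0) ∧
    (∀ x, ∑ i, φ x i ^ 2 ≤ (L + 1) ^ e) ∧ (∀ a, ∑ i, ψ a i ^ 2 ≤ (L + 1) ^ e) := by
  classical
  obtain ⟨ι, _, φ, ψ, h1, h2, h3⟩ := fact_one L
  have key : ∀ f : Fin e → ι → ℝ, ∑ k : Fin e → ι, ∏ j, f j (k j) = ∏ j, ∑ i, f j i := by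
    intro f
    rw [Finset.prod_univ_sum]
    simp
  have hn : ∀ f : Fin e → ι → ℝ, (∀ j, ∑ i, f j i ^ 2 ≤ L + 1) →
      ∑ k : Fin e → ι, (∏ j, f j (k j)) ^ 2 ≤ ((L : ℝ) + 1) ^ e := by
    intro f hf
    simp_rw [← Finset.prod_pow]
    rw [key (fun j i => f j i ^ 2)]
    calc ∏ j, ∑ i, f j i ^ 2 ≤ ∏ _j : Fin e, ((L : ℝ) + 1) :=
          Finset.prod_le_prod (fun j _ => Finset.sum_nonneg fun i _ => sq_nonneg _) fun j _ => hf j
      _ = _ := by simp
  refine ⟨Fin e → ι, inferInstance, fun x k => ∏ j, φ (x j) (k j), fun a k => ∏ j, ψ (a j) (k j),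
    ?_, fun x => hn (fun j => φ (x j)) fun j => h2 _, fun a => hn (fun j => ψ (a j)) fun j => h3 _⟩
  intro x a hx
  simp_rw [← Finset.prod_mul_distrib]
  rw [key (fun j i => φ (x j) i * ψ (a j) i)]
  simp_rw [fun j => h1 (x j) (a j) (hx j)]
  rw [Finset.prod_boole]
  simp

lemma exists_enum {Γ : Type} (γ0 : Γ) (s : Finset Γ) (c : Γ → ℕ) :
    ∃ P : ℕ → Γ, ∀ h : Γ → ℝ, ∑ i ∈ range (∑ γ ∈ s, c γ), h (P i) = ∑ γ ∈ s, c γ * h γ := by
  classical
  induction s using Finset.induction_on with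
  | empty => exact ⟨fun _ => γ0, fun h => by simp⟩
  | insert a s ha ih =>
    obtain ⟨P, hP⟩ := ih
    refine ⟨fun i => if i < ∑ γ ∈ s, c γ then P i else a, fun h => ?_⟩
    rw [Finset.sum_insert ha, Finset.sum_insert ha, add_comm (c a), Finset.sum_range_add, ← hP h,
      add_comm]
    congr 1
    · rw [Finset.sum_congr rfl (g := fun _ => h a) fun i _ => by beta_reduce; rw [if_neg (by omega)]]
      simp
    · exact Finset.sum_congr rfl fun i hi => by beta_reduce; rw [if_pos (mem_range.1 hi)]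

lemma rounding {Γ : Type} [Fintype Γ] (m : Γ → ℝ) (hm : ∀ γ, 0 ≤ m γ) (hs : ∑ γ, m γ = 1) (M : ℕ) :
    ∃ P : ℕ → Γ, (∑ i ∈ range M, (if m (P i) = 0 then (1 : ℝ) else 0) = 0) ∧
      ∀ h : Γ → ℝ, (∀ γ, 0 ≤ h γ ∧ h γ ≤ 1) →
        |∑ i ∈ range M, h (P i) - M * ∑ γ, m γ * h γ| ≤ Fintype.card Γ := by
  classical
  obtain ⟨γ0, hγ0⟩ : ∃ γ0, m γ0 ≠ 0 := by
    by_contra hcon
    push Not at hcon
    simp [hcon] at hs
  set f : Γ → ℕ := fun γ => ⌊M * m γ⌋₊ with hf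
  have hf1 : ∀ γ, (f γ : ℝ) ≤ M * m γ := fun γ => Nat.floor_le (mul_nonneg (by positivity) (hm γ))
  have hf2 : ∀ γ, M * m γ < f γ + 1 := fun γ => Nat.lt_floor_add_one _
  have hsum : ((∑ γ, f γ : ℕ) : ℝ) ≤ M := by
    push_cast
    calc ∑ γ, (f γ : ℝ) ≤ ∑ γ, M * m γ := Finset.sum_le_sum fun γ _ => hf1 γ
      _ = M := by rw [← Finset.mul_sum, hs, mul_one]
  have hsum2 : (M : ℝ) ≤ ((∑ γ, f γ : ℕ) : ℝ) + Fintype.card Γ := by
    push_cast
    calc (M : ℝ) = ∑ γ, M * m γ := by rw [← Finset.mul_sum, hs, mul_one]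
      _ ≤ ∑ γ, ((f γ : ℝ) + 1) := Finset.sum_le_sum fun γ _ => (hf2 γ).le
      _ = _ := by rw [Finset.sum_add_distrib]; simp
  have hsum' : ∑ γ, f γ ≤ M := by exact_mod_cast hsum
  set r : ℕ := M - ∑ γ, f γ with hr
  have hr' : (r : ℝ) = M - ((∑ γ, f γ : ℕ) : ℝ) := by rw [hr, Nat.cast_sub hsum']
  obtain ⟨P, hP⟩ := exists_enum γ0 Finset.univ (fun γ => f γ + if γ = γ0 then r else 0)
  have htot : ∑ γ, (f γ + if γ = γ0 then r else 0) = M := by
    rw [Finset.sum_add_distrib, Finset.sum_ite_eq']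
    simp only [mem_univ, if_true]
    omega
  rw [htot] at hP
  have hP' : ∀ h : Γ → ℝ, ∑ i ∈ range M, h (P i) = ∑ γ, f γ * h γ + r * h γ0 := by
    intro h
    rw [hP h]
    push_cast
    simp only [add_mul, Finset.sum_add_distrib, ite_mul, zero_mul, Finset.sum_ite_eq', mem_univ,
      if_true]
  refine ⟨P, ?_, fun h hh => ?_⟩
  · rw [hP' (fun γ => if m γ = 0 then (1 : ℝ) else 0), if_neg hγ0, mul_zero, add_zero]
    refine Finset.sum_eq_zero fun γ _ => ?_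
    split_ifs with h
    · simp [hf, h]
    · simp
  · rw [hP' h, Finset.mul_sum]
    have a1 : ∑ γ, (f γ : ℝ) * h γ ≤ ∑ γ, M * (m γ * h γ) :=
      Finset.sum_le_sum fun γ _ => by
        rw [← mul_assoc]; exact mul_le_mul_of_nonneg_right (hf1 γ) (hh γ).1
    have a2 : ∑ γ, M * (m γ * h γ) ≤ ∑ γ, ((f γ : ℝ) * h γ + 1) :=
      Finset.sum_le_sum fun γ _ => by
        have := mul_le_mul_of_nonneg_right (hf2 γ).le (hh γ).1
        nlinarith [(hh γ).2]
    rw [Finset.sum_add_distrib] at a2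
    simp only [Finset.sum_const, Finset.card_univ, nsmul_eq_mul, mul_one] at a2
    have a3 : 0 ≤ (r : ℝ) * h γ0 := mul_nonneg (by positivity) (hh γ0).1
    have a4 : (r : ℝ) * h γ0 ≤ r := by
      have := mul_le_mul_of_nonneg_left (hh γ0).2 (by positivity : (0 : ℝ) ≤ r)
      linarith
    rw [abs_le]
    constructor <;> linarith

/-- A finite low-discrepancy sequence for a probability vector on the grid `{0,…,2^L-1}^(e+1)`. -/
theorem grid_sequence (L e s : ℕ) (m : (Fin (e + 1) → Fin (2 ^ L)) → ℝ) (hm : ∀ γ, 0 ≤ m γ)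
    (hs : ∑ γ, m γ = 1) :
    ∃ Y : ℕ → (Fin (e + 1) → Fin (2 ^ L)), (∀ i, i < 2 ^ s → m (Y i) ≠ 0) ∧
      ∀ (b : Fin (e + 1) → Fin (2 ^ L + 1)) (n : ℕ), n ≤ 2 ^ s →
        |(∑ i ∈ range n, if ∀ j, (Y i j : ℕ) < b j then (1 : ℝ) else 0)
          - n * ∑ γ, m γ * (if ∀ j, (γ j : ℕ) < b j then (1 : ℝ) else 0)|
        ≤ 2 * ((L : ℝ) + 1) ^ e * (120 * ((s + L * (e + 1) : ℕ) : ℝ) + ((L + 1) * (e + 1) : ℕ)) + 1 := by
  classical
  obtain ⟨ι, _, φ, ψ, h1, h2, h3⟩ := fact_pi L e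
  set k := s + L * (e + 1) with hk
  obtain ⟨P, hP0, hP⟩ := rounding m hm hs (2 ^ k)
  set φ' : (Fin (e + 1) → Fin (2 ^ L)) → ι → ℝ := fun γ => φ fun j => γ j.succ with hφ'
  set ψ' : (Fin (e + 1) → Fin (2 ^ L + 1)) → ι → ℝ := fun b => ψ fun j => b j.succ with hψ'
  set κ : (Fin (e + 1) → Fin (2 ^ L)) → ℕ := fun γ => γ 0 with hκ
  set ζ : (Fin (e + 1) → Fin (2 ^ L + 1)) → ℕ := fun b => b 0 with hζ
  have hφψ : ∀ γ b, ∑ i, φ' γ i * ψ' b i
      = if ∀ j : Fin e, (γ j.succ : ℕ) < b j.succ then 1 else 0 :=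
    fun γ b => h1 _ _ fun j => (γ j.succ).isLt
  have htst : ∀ b γ, tst φ' ψ' κ ζ b γ = if ∀ j, (γ j : ℕ) < b j then (1 : ℝ) else 0 := by
    intro b γ
    rw [tst, hφψ]
    simp only [Fin.forall_fin_succ, ite_and]
    rfl
  have hR : (1 : ℝ) ≤ ((L : ℝ) + 1) ^ e := one_le_pow₀ (by linarith [Nat.cast_nonneg (α := ℝ) L])
  have hB : Fintype.card (Fin (e + 1) → Fin (2 ^ L + 1)) ≤ 2 ^ ((L + 1) * (e + 1)) := by
    rw [Fintype.card_fun, Fintype.card_fin, Fintype.card_fin, pow_mul]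
    refine Nat.pow_le_pow_left ?_ _
    have : 0 < 2 ^ L := by positivity
    rw [pow_succ]; omega
  obtain ⟨Q, hQ, hE⟩ := ordering_unif φ' ψ' κ ζ _ hR (fun γ => h2 _) (fun b => h3 _)
    (fun γ b => by rw [hφψ]; split_ifs <;> simp) k ((L + 1) * (e + 1)) hB P
  have hsk : 2 ^ s ≤ 2 ^ k := Nat.pow_le_pow_right (by norm_num) (by omega)
  refine ⟨Q, fun i hi => ?_, fun b n hn => ?_⟩
  · have h0 := hQ (fun γ => if m γ = 0 then (1 : ℝ) else 0)
    rw [hP0, Finset.sum_eq_zero_iff_of_nonneg (fun i _ => by split_ifs <;> norm_num)] at h0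
    have := h0 i (mem_range.2 (by omega))
    intro hz
    rw [if_pos hz] at this
    exact one_ne_zero this
  · have e1 := hE b n (hn.trans hsk)
    simp only [htst] at e1
    have e2 := hP (fun γ => if ∀ j, (γ j : ℕ) < b j then (1 : ℝ) else 0)
      (fun γ => by split_ifs <;> norm_num)
    rw [Fintype.card_fun, Fintype.card_fin, Fintype.card_fin] at e2
    set T := ∑ i ∈ range (2 ^ k), if ∀ j, (P i j : ℕ) < b j then (1 : ℝ) else 0
    set U := ∑ γ, m γ * (if ∀ j, (γ j : ℕ) < b j then (1 : ℝ) else 0)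
    set V := ∑ i ∈ range n, if ∀ j, (Q i j : ℕ) < b j then (1 : ℝ) else 0
    have hK : (0 : ℝ) < 2 ^ k := by positivity
    have e3 : V - n * U = (V - (n : ℝ) / 2 ^ k * T) + (n : ℝ) / 2 ^ k * (T - ((2 ^ k : ℕ) : ℝ) * U) := by
      push_cast; field_simp; ring
    rw [e3]
    refine (abs_add_le _ _).trans (add_le_add e1 ?_)
    rw [abs_mul, abs_of_nonneg (by positivity : 0 ≤ (n : ℝ) / 2 ^ k)]
    have hn' : (n : ℝ) ≤ 2 ^ s := by exact_mod_cast hn
    calc (n : ℝ) / 2 ^ k * |T - ((2 ^ k : ℕ) : ℝ) * U|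
        ≤ (2 : ℝ) ^ s / 2 ^ k * (((2 ^ L) ^ (e + 1) : ℕ) : ℝ) :=
          mul_le_mul (div_le_div_of_nonneg_right hn' hK.le) e2 (abs_nonneg _) (by positivity)
      _ = 1 := by
          push_cast
          rw [hk, pow_add, ← pow_mul]; field_simp

end Pool.Agent.MP_507a17_nt.H70
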