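import Pool.Agent.MP_507a17_nt.H70.Gauss

/-!
Halving and ordering a finite family of points, with exponential weights on the tests.
-/

set_option autoImplicit false
open Finset

namespace Pool.Agent.MP_507a17_nt.H70

lemma exists_sorted {X : Type} (M : ℕ) (P : ℕ → X) (κ : X → ℕ) :
    ∃ P' : ℕ → X, (∀ h : X → ℝ, ∑ i ∈ range M, h (P' i) = ∑ i ∈ range M, h (P i)) ∧
      ∀ i j, i ≤ j → j < M → κ (P' i) ≤ κ (P' j) := by
  let σ := Tuple.sort (fun i : Fin M => κ (P i))
  refine ⟨fun i => if h : i < M then P (σ ⟨i, h⟩) else P i, fun h => ?_, fun i j hij hj => ?_⟩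
  · rw [← Fin.sum_univ_eq_sum_range (fun i => h (if hi : i < M then P (σ ⟨i, hi⟩) else P i)) M,
      ← Fin.sum_univ_eq_sum_range (fun i => h (P i)) M]
    simp only [Fin.is_lt, dif_pos, Fin.eta]
    exact Equiv.sum_comp σ (fun i : Fin M => h (P i))
  · have hi : i < M := lt_of_le_of_lt hij hj
    simp only [hi, hj, dif_pos]
    exact Tuple.monotone_sort (fun i : Fin M => κ (P i)) (show (⟨i, hi⟩ : Fin M) ≤ ⟨j, hj⟩ from hij)

lemma sum_range_two_mul' (n : ℕ) (h : ℕ → ℝ) :
    ∑ j ∈ range (2 * n), h j = ∑ i ∈ range n, (h (2 * i) + h (2 * i + 1)) := by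
  induction n with
  | zero => simp
  | succ n ih => rw [show 2 * (n + 1) = 2 * n + 1 + 1 by ring, sum_range_succ, sum_range_succ,
      sum_range_succ, ih]; ring

variable {X ι B : Type} [Fintype ι] [Fintype B]

/-- the test function: a factorised function of the point times a cut-off in the key `κ` -/
noncomputable def tst (φ : X → ι → ℝ) (ψ : B → ι → ℝ) (κ : X → ℕ) (ζ : B → ℕ) (b : B) (x : X) : ℝ :=
  if κ x < ζ b then ∑ i, φ x i * ψ b i else 0

theorem halving (φ : X → ι → ℝ) (ψ : B → ι → ℝ) (κ : X → ℕ) (ζ : B → ℕ) (R : ℝ) (hR : 1 ≤ R)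
    (hφ : ∀ x, ∑ i, φ x i ^ 2 ≤ R) (hψ : ∀ b, ∑ i, ψ b i ^ 2 ≤ R)
    (h1 : ∀ x b, |∑ i, φ x i * ψ b i| ≤ 1)
    (n : ℕ) (P : ℕ → X) (W : B → ℝ) (hW : ∀ b, 0 ≤ W b) :
    ∃ P0 P1 : ℕ → X,
      (∀ h : X → ℝ, ∑ i ∈ range n, h (P0 i) + ∑ i ∈ range n, h (P1 i)
        = ∑ j ∈ range (2 * n), h (P j)) ∧
      ∑ b, W b * Real.exp (|∑ i ∈ range n, tst φ ψ κ ζ b (P0 i)
          - ∑ i ∈ range n, tst φ ψ κ ζ b (P1 i)| / (2 * R))
        ≤ 24 * Real.exp 73 * ∑ b, W b := by
  classical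
  obtain ⟨p, hp, hmono⟩ := exists_sorted (2 * n) P κ
  have hR0 : 0 < R := by linarith
  set s := Real.sqrt R with hs
  have hs0 : 0 < s := Real.sqrt_pos.2 hR0
  have hss : s * s = R := Real.mul_self_sqrt hR0.le
  set v : ℕ → ι → ℝ := fun t i => (φ (p (2 * t)) i - φ (p (2 * t + 1)) i) / (2 * s) with hv
  have hvn : ∀ t, ∑ i, v t i ^ 2 ≤ 1 := by
    intro t
    simp only [hv, div_pow]
    rw [← Finset.sum_div, div_le_one (by positivity)]
    have a := hφ (p (2 * t))
    have b := hφ (p (2 * t + 1))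
    calc ∑ i, (φ (p (2 * t)) i - φ (p (2 * t + 1)) i) ^ 2
        ≤ ∑ i, (2 * φ (p (2 * t)) i ^ 2 + 2 * φ (p (2 * t + 1)) i ^ 2) :=
          Finset.sum_le_sum fun i _ => by
            nlinarith [sq_nonneg (φ (p (2 * t)) i + φ (p (2 * t + 1)) i)]
      _ ≤ (2 * s) ^ 2 := by
          rw [Finset.sum_add_distrib, ← Finset.mul_sum, ← Finset.mul_sum]
          nlinarith
  have hex : ∀ b, ∃ i, ¬ (i < n ∧ κ (p (2 * i + 1)) < ζ b) := fun b => ⟨n, fun h => lt_irrefl _ h.1⟩
  set τ : B → ℕ := fun b => Nat.find (hex b) with hτ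
  set u : B × Bool → ι → ℝ := fun a i => (if a.2 then 1 else -1) * (ψ a.1 i / s) with hu
  have hun : ∀ a, ∑ i, u a i ^ 2 ≤ 1 := by
    intro a
    have : ∀ i, u a i ^ 2 = ψ a.1 i ^ 2 / R := by
      intro i
      simp only [hu]
      rw [mul_pow, div_pow, sq s, hss]
      split_ifs <;> simp
    simp only [this]
    rw [← Finset.sum_div, div_le_one hR0]
    exact hψ a.1
  obtain ⟨ε, hε, hbal⟩ := balancing v hvn u hun (fun a => τ a.1) (fun a => W a.1) (fun a => hW a.1)
  refine ⟨fun i => if ε i = 1 then p (2 * i) else p (2 * i + 1),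
    fun i => if ε i = 1 then p (2 * i + 1) else p (2 * i), fun h => ?_, ?_⟩
  · rw [← hp h, sum_range_two_mul', ← Finset.sum_add_distrib]
    refine Finset.sum_congr rfl fun i _ => ?_
    beta_reduce
    split_ifs <;> ring
  · set S : B → ℝ := fun b => ∑ i, (ψ b i / s) * (∑ j ∈ range (τ b), ε j • v j) i with hS
    have hbal' : ∑ b, W b * (Real.exp (S b) + Real.exp (-S b)) ≤ 12 * Real.exp 72 * ∑ b, W b := by
      rw [Fintype.sum_prod_type, Fintype.sum_prod_type] at hbal
      simp only [Fintype.sum_bool, hu, if_true, one_mul, Bool.false_eq_true, if_false, neg_mul,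
        Finset.sum_neg_distrib] at hbal
      rw [Finset.sum_add_distrib (f := W) (g := W)] at hbal
      simp only [mul_add]
      linarith
    have hchi : ∀ b, |∑ i ∈ range n, tst φ ψ κ ζ b (if ε i = 1 then p (2 * i) else p (2 * i + 1))
          - ∑ i ∈ range n, tst φ ψ κ ζ b (if ε i = 1 then p (2 * i + 1) else p (2 * i))| / (2 * R)
        ≤ |S b| + 1 := by
      intro b
      have hD : ∀ i, tst φ ψ κ ζ b (if ε i = 1 then p (2 * i) else p (2 * i + 1))
          - tst φ ψ κ ζ b (if ε i = 1 then p (2 * i + 1) else p (2 * i))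
          = ε i * (tst φ ψ κ ζ b (p (2 * i)) - tst φ ψ κ ζ b (p (2 * i + 1))) := by
        intro i
        rcases hε i with h | h
        · rw [if_pos h, if_pos h, h, one_mul]
        · have h' : ¬ ε i = 1 := by rw [h]; norm_num
          rw [if_neg h', if_neg h', h]; ring
      rw [← Finset.sum_sub_distrib]
      simp only [hD]
      have hτn : τ b ≤ n := Nat.find_min' (hex b) (fun h => lt_irrefl _ h.1)
      have hlt : ∀ i, i < τ b → i < n ∧ κ (p (2 * i + 1)) < ζ b := by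
        intro i hi
        have := Nat.find_min (hex b) hi
        exact not_not.1 this
      have hspec : ¬ (τ b < n ∧ κ (p (2 * τ b + 1)) < ζ b) := Nat.find_spec (hex b)
      have hpre : ∑ i ∈ range (τ b),
          ε i * (tst φ ψ κ ζ b (p (2 * i)) - tst φ ψ κ ζ b (p (2 * i + 1))) = 2 * R * S b := by
        simp only [hS, Finset.sum_apply, Pi.smul_apply, smul_eq_mul, Finset.mul_sum]
        rw [Finset.sum_comm]
        refine Finset.sum_congr rfl fun j hj => ?_
        obtain ⟨hjn, hj2⟩ := hlt j (mem_range.1 hj)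
        have hj1 : κ (p (2 * j)) < ζ b :=
          lt_of_le_of_lt (hmono _ _ (Nat.le_succ _) (by omega)) hj2
        rw [tst, tst, if_pos hj1, if_pos hj2, ← Finset.sum_sub_distrib, Finset.mul_sum]
        refine Finset.sum_congr rfl fun i _ => ?_
        simp only [hv]
        rw [← hss]
        field_simp
      have hbound : |∑ i ∈ range n,
          ε i * (tst φ ψ κ ζ b (p (2 * i)) - tst φ ψ κ ζ b (p (2 * i + 1))) - 2 * R * S b| ≤ 1 := by
        rcases eq_or_lt_of_le hτn with h | h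
        · rw [← hpre, h, sub_self, abs_zero]; exact zero_le_one
        · have hz : ¬ κ (p (2 * τ b + 1)) < ζ b := fun h' => hspec ⟨h, h'⟩
          have hsub : ∑ i ∈ range (τ b + 1),
              ε i * (tst φ ψ κ ζ b (p (2 * i)) - tst φ ψ κ ζ b (p (2 * i + 1)))
              = ∑ i ∈ range n,
              ε i * (tst φ ψ κ ζ b (p (2 * i)) - tst φ ψ κ ζ b (p (2 * i + 1))) := by
            refine Finset.sum_subset (range_subset_range.2 h) fun i hi hi' => ?_
            rw [mem_range] at hi hi'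
            have a1 : ¬ κ (p (2 * i)) < ζ b := fun h' =>
              hz (lt_of_le_of_lt (hmono _ _ (by omega) (by omega)) h')
            have a2 : ¬ κ (p (2 * i + 1)) < ζ b := fun h' =>
              hz (lt_of_le_of_lt (hmono _ _ (by omega) (by omega)) h')
            rw [tst, tst, if_neg a1, if_neg a2, sub_self, mul_zero]
          rw [← hsub, Finset.sum_range_succ, hpre, add_sub_cancel_left, tst, tst, if_neg hz,
            sub_zero, abs_mul]
          have e1 : |ε (τ b)| = 1 := by rcases hε (τ b) with h | h <;> simp [h]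
          rw [e1, one_mul]
          split_ifs
          · exact h1 _ _
          · simp
      rw [div_le_iff₀ (by positivity)]
      have := abs_add_le (∑ i ∈ range n,
          ε i * (tst φ ψ κ ζ b (p (2 * i)) - tst φ ψ κ ζ b (p (2 * i + 1))) - 2 * R * S b)
          (2 * R * S b)
      rw [sub_add_cancel, abs_mul, abs_of_pos (by positivity : 0 < 2 * R)] at this
      nlinarith [abs_nonneg (S b)]
    have hterm : ∀ b, W b * Real.exp (|∑ i ∈ range n,
          tst φ ψ κ ζ b (if ε i = 1 then p (2 * i) else p (2 * i + 1))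
          - ∑ i ∈ range n, tst φ ψ κ ζ b (if ε i = 1 then p (2 * i + 1) else p (2 * i))| / (2 * R))
        ≤ Real.exp 1 * (W b * (Real.exp (S b) + Real.exp (-S b))) := by
      intro b
      rw [mul_left_comm]
      refine mul_le_mul_of_nonneg_left ?_ (hW b)
      refine (Real.exp_le_exp.2 (hchi b)).trans ?_
      rw [Real.exp_add, mul_comm]
      refine mul_le_mul_of_nonneg_left ?_ (Real.exp_pos 1).le
      have p1 := Real.exp_pos (S b)
      have p2 := Real.exp_pos (-S b)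
      rcases abs_cases (S b) with h | h <;> rw [h.1] <;> linarith
    refine (Finset.sum_le_sum fun b _ => hterm b).trans ?_
    rw [← Finset.mul_sum]
    have hW0 : 0 ≤ ∑ b, W b := Finset.sum_nonneg fun b _ => hW b
    have e73 : Real.exp 73 = Real.exp 1 * Real.exp 72 := by rw [← Real.exp_add]; norm_num
    have := mul_le_mul_of_nonneg_left hbal' (Real.exp_pos 1).le
    have p73 := Real.exp_pos 73
    rw [e73] at p73 ⊢
    nlinarith

theorem ordering (φ : X → ι → ℝ) (ψ : B → ι → ℝ) (κ : X → ℕ) (ζ : B → ℕ) (R : ℝ) (hR : 1 ≤ R)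
    (hφ : ∀ x, ∑ i, φ x i ^ 2 ≤ R) (hψ : ∀ b, ∑ i, ψ b i ^ 2 ≤ R)
    (h1 : ∀ x b, |∑ i, φ x i * ψ b i| ≤ 1) (k : ℕ) :
    ∀ (P : ℕ → X) (W : B → ℝ), (∀ b, 0 ≤ W b) →
    ∃ (Q : ℕ → X) (E : B → ℝ),
      (∀ h : X → ℝ, ∑ i ∈ range (2 ^ k), h (Q i) = ∑ i ∈ range (2 ^ k), h (P i)) ∧
      (∀ b n, n ≤ 2 ^ k → |∑ i ∈ range n, tst φ ψ κ ζ b (Q i)
          - (n : ℝ) / 2 ^ k * ∑ i ∈ range (2 ^ k), tst φ ψ κ ζ b (P i)| ≤ E b) ∧
      ∑ b, W b * Real.exp (E b / (2 * R)) ≤ (48 * Real.exp 73) ^ k * ∑ b, W b := by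
  induction k with
  | zero =>
    intro P W _
    refine ⟨P, fun _ => 0, fun _ => rfl, fun b n hn => ?_, by simp⟩
    rw [pow_zero] at hn
    interval_cases n <;> simp
  | succ k ih =>
    intro P W hW
    obtain ⟨P0, P1, hP, hχ⟩ := halving φ ψ κ ζ R hR hφ hψ h1 (2 ^ k) P W hW
    set χ : B → ℝ := fun b => ∑ i ∈ range (2 ^ k), tst φ ψ κ ζ b (P0 i)
          - ∑ i ∈ range (2 ^ k), tst φ ψ κ ζ b (P1 i) with hχdef
    set W' : B → ℝ := fun b => W b * Real.exp (|χ b| / (2 * R)) with hW'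
    have hW'0 : ∀ b, 0 ≤ W' b := fun b => mul_nonneg (hW b) (Real.exp_pos _).le
    obtain ⟨Q0, E0, hQ0, hE0, hS0⟩ := ih P0 W' hW'0
    obtain ⟨Q1, E1, hQ1, hE1, hS1⟩ := ih P1 W' hW'0
    have hpow : 2 ^ (k + 1) = 2 ^ k + 2 ^ k := by ring
    have hpow' : 2 ^ (k + 1) = 2 * 2 ^ k := by ring
    have hsplit : ∀ (h : X → ℝ) (m : ℕ),
        ∑ i ∈ range (2 ^ k + m), h (if i < 2 ^ k then Q0 i else Q1 (i - 2 ^ k))
          = ∑ i ∈ range (2 ^ k), h (Q0 i) + ∑ i ∈ range m, h (Q1 i) := by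
      intro h m
      rw [Finset.sum_range_add]
      congr 1
      · exact Finset.sum_congr rfl fun i hi => by rw [if_pos (mem_range.1 hi)]
      · exact Finset.sum_congr rfl fun i _ => by
          rw [if_neg (by omega), Nat.add_sub_cancel_left]
    refine ⟨fun i => if i < 2 ^ k then Q0 i else Q1 (i - 2 ^ k),
      fun b => |χ b| + max (E0 b) (E1 b), fun h => ?_, fun b n hn => ?_, ?_⟩
    · rw [hpow, hsplit, hQ0, hQ1, hP, two_mul]
    · have hT := hP (tst φ ψ κ ζ b)
      rw [← hpow'] at hT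
      rw [← hT]
      set a0 := ∑ i ∈ range (2 ^ k), tst φ ψ κ ζ b (P0 i) with ha0
      set a1 := ∑ i ∈ range (2 ^ k), tst φ ψ κ ζ b (P1 i) with ha1
      have hχb : χ b = a0 - a1 := rfl
      have hK : (0 : ℝ) < 2 ^ k := by positivity
      rcases le_or_gt n (2 ^ k) with hle | hgt
      · have e : ∑ i ∈ range n, tst φ ψ κ ζ b (if i < 2 ^ k then Q0 i else Q1 (i - 2 ^ k))
            = ∑ i ∈ range n, tst φ ψ κ ζ b (Q0 i) :=
          Finset.sum_congr rfl fun i hi => by
            rw [if_pos (lt_of_lt_of_le (mem_range.1 hi) hle)]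
        rw [e]
        have h0 := hE0 b n hle
        rw [← ha0] at h0
        have hc : (n : ℝ) / 2 ^ k ≤ 1 := by
          rw [div_le_one hK]; exact_mod_cast hle
        have hc0 : 0 ≤ (n : ℝ) / 2 ^ k := by positivity
        have e2 : ∑ i ∈ range n, tst φ ψ κ ζ b (Q0 i) - (n : ℝ) / 2 ^ (k + 1) * (a0 + a1)
            = (∑ i ∈ range n, tst φ ψ κ ζ b (Q0 i) - (n : ℝ) / 2 ^ k * a0)
              + ((n : ℝ) / 2 ^ k / 2) * χ b := by
          rw [hχb, pow_succ]; field_simp; ring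
        rw [e2]
        refine (abs_add_le _ _).trans ?_
        rw [abs_mul, abs_of_nonneg (by positivity : 0 ≤ (n : ℝ) / 2 ^ k / 2)]
        have := le_max_left (E0 b) (E1 b)
        nlinarith [abs_nonneg (χ b)]
      · obtain ⟨m, rfl⟩ : ∃ m, n = 2 ^ k + m := ⟨n - 2 ^ k, by omega⟩
        have hm : m ≤ 2 ^ k := by omega
        rw [hsplit, hQ0, ← ha0]
        have h0 := hE1 b m hm
        rw [← ha1] at h0
        have hc : (m : ℝ) / 2 ^ k ≤ 1 := by
          rw [div_le_one hK]; exact_mod_cast hm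
        have hc0 : 0 ≤ (m : ℝ) / 2 ^ k := by positivity
        have e2 : a0 + ∑ i ∈ range m, tst φ ψ κ ζ b (Q1 i)
            - ((2 ^ k + m : ℕ) : ℝ) / 2 ^ (k + 1) * (a0 + a1)
            = (∑ i ∈ range m, tst φ ψ κ ζ b (Q1 i) - (m : ℝ) / 2 ^ k * a1)
              + ((1 - (m : ℝ) / 2 ^ k) / 2) * χ b := by
          rw [hχb, pow_succ]; push_cast; field_simp; ring
        rw [e2]
        refine (abs_add_le _ _).trans ?_
        rw [abs_mul, abs_of_nonneg (by linarith : 0 ≤ (1 - (m : ℝ) / 2 ^ k) / 2)]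
        have := le_max_right (E0 b) (E1 b)
        nlinarith [abs_nonneg (χ b)]
    · have hterm : ∀ b, W b * Real.exp ((|χ b| + max (E0 b) (E1 b)) / (2 * R))
          ≤ W' b * Real.exp (E0 b / (2 * R)) + W' b * Real.exp (E1 b / (2 * R)) := by
        intro b
        rw [add_div, Real.exp_add, ← mul_assoc, ← mul_add]
        refine mul_le_mul_of_nonneg_left ?_ (hW'0 b)
        have p1 := Real.exp_pos (E0 b / (2 * R))
        have p2 := Real.exp_pos (E1 b / (2 * R))
        rcases max_cases (E0 b) (E1 b) with h | h <;> rw [h.1] <;> linarith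
      refine (Finset.sum_le_sum fun b _ => hterm b).trans ?_
      rw [Finset.sum_add_distrib]
      have hp : (0 : ℝ) ≤ (48 * Real.exp 73) ^ k := by positivity
      have := mul_le_mul_of_nonneg_left hχ hp
      rw [pow_succ]
      have e : ∑ b, W' b = ∑ b, W b * Real.exp (|χ b| / (2 * R)) := rfl
      rw [e] at hS0 hS1
      linarith

/-- Uniform version: order `2 ^ k` points so that every prefix is proportional on every test. -/
theorem ordering_unif (φ : X → ι → ℝ) (ψ : B → ι → ℝ) (κ : X → ℕ) (ζ : B → ℕ) (R : ℝ) (hR : 1 ≤ R)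
    (hφ : ∀ x, ∑ i, φ x i ^ 2 ≤ R) (hψ : ∀ b, ∑ i, ψ b i ^ 2 ≤ R)
    (h1 : ∀ x b, |∑ i, φ x i * ψ b i| ≤ 1) (k l : ℕ) (hB : Fintype.card B ≤ 2 ^ l) (P : ℕ → X) :
    ∃ Q : ℕ → X,
      (∀ h : X → ℝ, ∑ i ∈ range (2 ^ k), h (Q i) = ∑ i ∈ range (2 ^ k), h (P i)) ∧
      (∀ b n, n ≤ 2 ^ k → |∑ i ∈ range n, tst φ ψ κ ζ b (Q i)
          - (n : ℝ) / 2 ^ k * ∑ i ∈ range (2 ^ k), tst φ ψ κ ζ b (P i)| ≤ 2 * R * (120 * k + l)) := by
  obtain ⟨Q, E, hQ, hE, hS⟩ := ordering φ ψ κ ζ R hR hφ hψ h1 k P (fun _ => 1) (fun _ => zero_le_one)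
  refine ⟨Q, hQ, fun b n hn => (hE b n hn).trans ?_⟩
  simp only [one_mul, Finset.sum_const, Finset.card_univ, nsmul_eq_mul, mul_one] at hS
  have h2 : Real.exp (E b / (2 * R)) ≤ ∑ b, Real.exp (E b / (2 * R)) :=
    Finset.single_le_sum (f := fun b => Real.exp (E b / (2 * R)))
      (fun b _ => (Real.exp_pos _).le) (mem_univ b)
  have h48 : 48 * Real.exp 73 ≤ Real.exp 120 := by
    have : Real.exp 120 = Real.exp 47 * Real.exp 73 := by rw [← Real.exp_add]; norm_num
    rw [this]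
    have := Real.add_one_le_exp 47
    exact mul_le_mul_of_nonneg_right (by linarith) (Real.exp_pos _).le
  have h3 : (48 * Real.exp 73) ^ k ≤ Real.exp (120 * k) := by
    rw [mul_comm (120 : ℝ), Real.exp_nat_mul]
    exact pow_le_pow_left₀ (by positivity) h48 k
  have h4 : (Fintype.card B : ℝ) ≤ Real.exp l := by
    have a : (Fintype.card B : ℝ) ≤ 2 ^ l := by exact_mod_cast hB
    have b : (2 : ℝ) ^ l ≤ Real.exp 1 ^ l :=
      pow_le_pow_left₀ (by norm_num) (by have := Real.add_one_le_exp 1; linarith) l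
    rw [← Real.exp_nat_mul, mul_one] at b
    exact a.trans b
  have h5 : Real.exp (E b / (2 * R)) ≤ Real.exp (120 * k + l) := by
    rw [Real.exp_add]
    exact h2.trans (hS.trans (mul_le_mul h3 h4 (by positivity) (Real.exp_pos _).le))
  have h6 := Real.exp_le_exp.1 h5
  rw [div_le_iff₀ (by linarith)] at h6
  linarith

end Pool.Agent.MP_507a17_nt.H70
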