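import Pool.Agent.MP_507a17_nt.H70.Bracket

/-!
Point sets in the plane: rows by quantiles, columns by a greedy descent in the dyadic tree.
-/

set_option autoImplicit false
open MeasureTheory Finset

namespace Pool.Agent.MP_507a17_nt.H70

lemma split (F G : ℕ → ℝ) (S : Finset ℕ) :
    (∀ i ∈ S, ((S.filter (· ≤ i)).card : ℝ) < F i + G i + 1) →
    ∃ A B : Finset ℕ, Disjoint A B ∧ A ∪ B = S ∧
      (∀ i ∈ A, ((A.filter (· ≤ i)).card : ℝ) < F i + 1) ∧
      (∀ i ∈ B, ((B.filter (· ≤ i)).card : ℝ) < G i + 1) := by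
  induction S using Finset.induction_on_max with
  | empty => exact fun _ => ⟨∅, ∅, by simp, by simp, by simp, by simp⟩
  | insert a S ha ih =>
    intro h
    have hfil : ∀ (T : Finset ℕ) (i : ℕ), i < a → (insert a T).filter (· ≤ i) = T.filter (· ≤ i) := by
      intro T i hi
      rw [Finset.filter_insert, if_neg (by omega)]
    have hfil2 : ∀ T : Finset ℕ, T ⊆ S → (((insert a T).filter (· ≤ a)).card : ℝ) = T.card + 1 := by
      intro T hT
      rw [Finset.filter_true_of_mem, Finset.card_insert_of_notMem (fun h => lt_irrefl _ (ha a (hT h)))]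
      · push_cast; rfl
      · intro x hx
        rcases Finset.mem_insert.1 hx with rfl | hx
        · exact le_rfl
        · exact (ha x (hT hx)).le
    obtain ⟨A, B, hd, hu, hA, hB⟩ := ih fun i hi => by
      have := h i (Finset.mem_insert_of_mem hi)
      rwa [hfil S i (ha i hi)] at this
    have hAS : A ⊆ S := hu ▸ Finset.subset_union_left
    have hBS : B ⊆ S := hu ▸ Finset.subset_union_right
    have h1 := h a (Finset.mem_insert_self _ _)
    rw [hfil2 S (Finset.Subset.refl _), ← hu, Finset.card_union_of_disjoint hd] at h1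
    push_cast at h1
    by_cases hc : (A.card : ℝ) < F a
    · refine ⟨insert a A, B, ?_, ?_, ?_, hB⟩
      · rw [Finset.disjoint_insert_left]
        exact ⟨fun h => lt_irrefl _ (ha a (hBS h)), hd⟩
      · rw [Finset.insert_union, hu]
      · intro i hi
        rcases Finset.mem_insert.1 hi with rfl | hi
        · rw [hfil2 A hAS]; linarith
        · rw [hfil A i (ha i (hAS hi))]; exact hA i hi
    · refine ⟨A, insert a B, ?_, ?_, hA, ?_⟩
      · rw [Finset.disjoint_insert_right]
        exact ⟨fun h => lt_irrefl _ (ha a (hAS h)), hd⟩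
      · rw [Finset.union_insert, hu]
      · intro i hi
        rcases Finset.mem_insert.1 hi with rfl | hi
        · rw [hfil2 B hBS]; linarith
        · rw [hfil B i (ha i (hBS hi))]; exact hB i hi

lemma count_le (T : ℕ → ℝ) (S : Finset ℕ) (h : ∀ i ∈ S, ((S.filter (· ≤ i)).card : ℝ) < T i + 1)
    (n : ℕ) (U : ℝ) (hU : 0 ≤ U) (hT : ∀ i, i < n → T i ≤ U) :
    ((S.filter (· < n)).card : ℝ) ≤ U + 1 := by
  rcases (S.filter (· < n)).eq_empty_or_nonempty with h0 | hne
  · rw [h0]; simp; linarith
  · set i := (S.filter (· < n)).max' hne with hi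
    have him : i ∈ S.filter (· < n) := Finset.max'_mem _ hne
    rw [Finset.mem_filter] at him
    have hsub : S.filter (· < n) ⊆ S.filter (· ≤ i) := fun x hx =>
      Finset.mem_filter.2 ⟨(Finset.mem_filter.1 hx).1, Finset.le_max' _ x hx⟩
    have h1 : ((S.filter (· < n)).card : ℝ) ≤ (S.filter (· ≤ i)).card := by
      exact_mod_cast Finset.card_le_card hsub
    have := h i him.1
    have := hT i him.2
    linarith

lemma tree (L : ℕ) : ∀ (w : ℕ → ℕ → ℝ) (S : Finset ℕ),
    (∀ i ∈ S, ((S.filter (· ≤ i)).card : ℝ) < ∑ k ∈ range (2 ^ L), w k i + 1) →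
    ∃ col : ℕ → ℕ, (∀ i ∈ S, col i < 2 ^ L ∧ 0 < w (col i) i) ∧
      ∀ (n : ℕ) (W : ℕ → ℝ), (∀ k, 0 ≤ W k) → (∀ k i, i < n → w k i ≤ W k) → ∀ a : ℕ,
        ((S.filter (fun i => i < n ∧ col i < a)).card : ℝ)
          ≤ (∑ k ∈ range (2 ^ L), if k < a then W k else 0) + (L + 1) ∧
        ((S.filter (fun i => i < n ∧ ¬ col i < a)).card : ℝ)
          ≤ (∑ k ∈ range (2 ^ L), if k < a then 0 else W k) + (L + 1) := by
  induction L with
  | zero =>
    intro w S h
    simp only [pow_zero, range_one, sum_singleton] at h ⊢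
    refine ⟨fun _ => 0, fun i hi => ⟨Nat.one_pos, ?_⟩, fun n W hW hw a => ?_⟩
    · have h1 := h i hi
      have h2 : 1 ≤ (S.filter (· ≤ i)).card :=
        Finset.card_pos.2 ⟨i, Finset.mem_filter.2 ⟨hi, le_rfl⟩⟩
      have h3 : (1 : ℝ) ≤ (S.filter (· ≤ i)).card := by exact_mod_cast h2
      linarith
    · have := count_le (w 0) S h n (W 0) (hW 0) (hw 0)
      by_cases ha : 0 < a <;> simp [ha] <;> simpa using this
  | succ L ih =>
    intro w S h
    have hp : 2 ^ (L + 1) = 2 ^ L + 2 ^ L := by ring
    simp only [hp, Finset.sum_range_add] at h ⊢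
    obtain ⟨A, B, hd, hu, hA, hB⟩ := split _ _ S h
    obtain ⟨cA, hA1, hA2⟩ := ih w A hA
    obtain ⟨cB, hB1, hB2⟩ := ih (fun k i => w (2 ^ L + k) i) B hB
    have hnA : ∀ i ∈ B, i ∉ A := fun i hi hi' => Finset.disjoint_left.1 hd hi' hi
    refine ⟨fun i => if i ∈ A then cA i else 2 ^ L + cB i, fun i hi => ?_, fun n W hW hw a => ?_⟩
    · rw [← hu, Finset.mem_union] at hi
      rcases hi with hi | hi
      · simp only [hi, if_true]
        exact ⟨by have := (hA1 i hi).1; omega, (hA1 i hi).2⟩
      · simp only [hnA i hi, if_false]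
        exact ⟨by have := (hB1 i hi).1; omega, (hB1 i hi).2⟩
    · have hsplit : ∀ (p : ℕ → Prop) [DecidablePred p],
          ((S.filter (fun i => i < n ∧ p (if i ∈ A then cA i else 2 ^ L + cB i))).card : ℝ)
          = (A.filter (fun i => i < n ∧ p (cA i))).card
            + (B.filter (fun i => i < n ∧ p (2 ^ L + cB i))).card := by
        intro p _
        rw [← hu, Finset.filter_union, Finset.card_union_of_disjoint
          (Finset.disjoint_filter_filter hd)]
        push_cast
        congr 3
        · exact Finset.filter_congr fun i hi => by rw [if_pos hi]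
        · exact Finset.filter_congr fun i hi => by rw [if_neg (hnA i hi)]
      have e1 := hsplit (fun c => c < a)
      have e2 := hsplit (fun c => ¬ c < a)
      have cntA := count_le _ A hA n (∑ k ∈ range (2 ^ L), W k)
        (Finset.sum_nonneg fun k _ => hW k) (fun i hi => Finset.sum_le_sum fun k _ => hw k i hi)
      have cntB := count_le _ B hB n (∑ k ∈ range (2 ^ L), W (2 ^ L + k))
        (Finset.sum_nonneg fun k _ => hW _) (fun i hi => Finset.sum_le_sum fun k _ => hw _ i hi)
      obtain ⟨a1, a2⟩ := hA2 n W hW hw a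
      obtain ⟨b1, b2⟩ := hB2 n (fun k => W (2 ^ L + k)) (fun k => hW _)
        (fun k i hi => hw _ i hi) (a - 2 ^ L)
      push_cast
      rcases le_or_gt a (2 ^ L) with hle | hgt
      · have z1 : B.filter (fun i => i < n ∧ 2 ^ L + cB i < a) = ∅ :=
          Finset.filter_false_of_mem fun i _ h => by omega
        have z2 : B.filter (fun i => i < n ∧ ¬ 2 ^ L + cB i < a) = B.filter (· < n) :=
          Finset.filter_congr fun i _ => by omega
        have z3 : ∑ k ∈ range (2 ^ L), (if 2 ^ L + k < a then W (2 ^ L + k) else 0) = 0 :=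
          Finset.sum_eq_zero fun k _ => if_neg (by omega)
        have z4 : ∑ k ∈ range (2 ^ L), (if 2 ^ L + k < a then 0 else W (2 ^ L + k))
            = ∑ k ∈ range (2 ^ L), W (2 ^ L + k) :=
          Finset.sum_congr rfl fun k _ => if_neg (by omega)
        rw [z1] at e1
        rw [z2] at e2
        rw [z3, z4]
        simp only [Finset.card_empty, Nat.cast_zero, add_zero] at e1
        constructor
        · refine (le_of_eq (by convert e1)).trans ?_
          linarith
        · refine (le_of_eq (by convert e2)).trans ?_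
          linarith
      · have z1 : A.filter (fun i => i < n ∧ ¬ cA i < a) = ∅ :=
          Finset.filter_false_of_mem fun i hi h => by have := (hA1 i hi).1; omega
        have z2 : A.filter (fun i => i < n ∧ cA i < a) = A.filter (· < n) :=
          Finset.filter_congr fun i hi => by have := (hA1 i hi).1; omega
        have z3 : ∑ k ∈ range (2 ^ L), (if k < a then 0 else W k) = 0 :=
          Finset.sum_eq_zero fun k hk => if_pos (by have := mem_range.1 hk; omega)
        have z4 : ∑ k ∈ range (2 ^ L), (if k < a then W k else 0) = ∑ k ∈ range (2 ^ L), W k :=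
          Finset.sum_congr rfl fun k hk => if_pos (by have := mem_range.1 hk; omega)
        have z5 : ∀ k, (2 ^ L + k < a) ↔ (k < a - 2 ^ L) := fun k => by omega
        rw [z1] at e2
        rw [z2] at e1
        rw [z3, z4]
        simp only [Finset.card_empty, Nat.cast_zero, zero_add, z5] at e1 e2 ⊢
        constructor
        · refine (le_of_eq (by convert e1)).trans ?_
          linarith
        · refine (le_of_eq (by convert e2)).trans ?_
          linarith

open Classical in
theorem plane (μ : Measure (Fin 2 → ℝ)) [IsProbabilityMeasure μ]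
    (hμ : μ (Set.Icc (0 : Fin 2 → ℝ) 1)ᶜ = 0) (N L : ℕ) (hN : 0 < N) (hL : 2 * N + 1 ≤ 2 ^ L) :
    ∃ x : ℕ → (Fin 2 → ℝ), (∀ i, x i ∈ Set.Icc (0 : Fin 2 → ℝ) 1) ∧
      ∀ A : Fin 2 → Set ℝ, (∀ j, IsLowerSet (A j)) →
        |(((range N).filter (fun i => ∀ j, x i j ∈ A j)).card : ℝ)
          - N * μ.real {z | ∀ j, z j ∈ A j}| ≤ L + 3 := by
  have hN' : (0 : ℝ) < N := by exact_mod_cast hN
  have hprob : ∀ j : Fin 2, IsProbabilityMeasure (μ.map (fun z : Fin 2 → ℝ => z j)) := fun j =>
    Measure.isProbabilityMeasure_map (measurable_pi_apply j).aemeasurable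
  choose c hcm hcK hc using fun j : Fin 2 => bracket (μ.map (fun z : Fin 2 → ℝ => z j)) N hN
  have hcj : ∀ j, Measurable fun z : Fin 2 → ℝ => c j (z j) := fun j =>
    (hcm j).comp (measurable_pi_apply j)
  set H : ℕ → ℕ → ℝ := fun a b => μ.real {z | c 0 (z 0) < a ∧ c 1 (z 1) < b} with hH
  set u : ℕ → ℕ → ℝ := fun k b => μ.real {z | c 0 (z 0) = k ∧ c 1 (z 1) < b} with hu
  have hHu : ∀ a b, H a b = ∑ k ∈ range a, u k b := by
    intro a b
    induction a with
    | zero => simp [hH]
    | succ a ih =>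
      rw [Finset.sum_range_succ, ← ih]
      simp only [hH, hu]
      rw [← measureReal_union]
      · congr 1
        ext z
        simp only [Set.mem_ofPred_eq, Set.mem_union]
        omega
      · rw [Set.disjoint_left]
        intro z h1 h2
        simp only [Set.mem_ofPred_eq] at h1 h2
        omega
      · exact ((hcj 0) (measurableSet_singleton a)).inter
          (measurableSet_lt (hcj 1) measurable_const)
  have hu0 : ∀ k b, 0 ≤ u k b := fun k b => measureReal_nonneg
  have humono : ∀ k b b', b ≤ b' → u k b ≤ u k b' := fun k b b' h =>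
    measureReal_mono fun z hz => ⟨hz.1, lt_of_lt_of_le hz.2 h⟩
  have hHmono : ∀ a b b', b ≤ b' → H a b ≤ H a b' := fun a b b' h =>
    measureReal_mono fun z hz => ⟨hz.1, lt_of_lt_of_le hz.2 h⟩
  have hH1 : H (2 ^ L) (2 * N + 1) = 1 := by
    have : {z : Fin 2 → ℝ | c 0 (z 0) < 2 ^ L ∧ c 1 (z 1) < 2 * N + 1} = Set.univ := by
      refine Set.eq_univ_of_forall fun z => ⟨?_, ?_⟩
      · have := hcK 0 (z 0); omega
      · have := hcK 1 (z 1); omega
    simp only [hH, this, probReal_univ]
  have hH0 : H (2 ^ L) 0 = 0 := by simp [hH]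
  have hex : ∀ i, ∃ j, i < N → (i : ℝ) < N * H (2 ^ L) (j + 1) := fun i =>
    ⟨2 * N, fun hi => by rw [hH1, mul_one]; exact_mod_cast hi⟩
  set t : ℕ → ℕ := fun i => Nat.find (hex i) with ht
  have ht1 : ∀ i, i < N → (i : ℝ) < N * H (2 ^ L) (t i + 1) := fun i => Nat.find_spec (hex i)
  have ht2 : ∀ i b, i < N → (t i < b ↔ (i : ℝ) < N * H (2 ^ L) b) := by
    intro i b hi
    constructor
    · intro h
      exact (ht1 i hi).trans_le (mul_le_mul_of_nonneg_left (hHmono _ _ _ h) hN'.le)
    · intro h
      rcases b with _ | b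
      · rw [hH0, mul_zero] at h
        exact absurd h (not_lt.2 (Nat.cast_nonneg i))
      · exact Nat.lt_succ_of_le (Nat.find_min' (hex i) fun _ => h)
  obtain ⟨col, hcol1, hcol2⟩ := tree L (fun k i => if i < N then N * u k (t i + 1) else 0) (range N)
    (fun i hi => by
      have hi' := mem_range.1 hi
      have : (range N).filter (· ≤ i) = range (i + 1) := by
        ext x; simp only [mem_filter, mem_range]; omega
      rw [this, card_range]
      simp only [hi', if_true]
      rw [← Finset.mul_sum, ← hHu]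
      push_cast
      linarith [ht1 i hi'])
  have hrep : ∀ (j : Fin 2) (k : ℕ), ∃ r : ℝ, 0 ≤ r ∧ r ≤ 1 ∧
      (μ.real {z | c j (z j) = k} ≠ 0 → c j r = k) := by
    intro j k
    by_cases h : μ.real {z | c j (z j) = k} = 0
    · exact ⟨0, le_rfl, zero_le_one, fun h' => absurd h h'⟩
    · by_contra hcon
      push Not at hcon
      have hsub : {z : Fin 2 → ℝ | c j (z j) = k} ⊆ (Set.Icc (0 : Fin 2 → ℝ) 1)ᶜ :=
        fun z hz hz' => (hcon (z j) (hz'.1 j) (hz'.2 j)).2 hz
      have : μ {z : Fin 2 → ℝ | c j (z j) = k} = 0 := measure_mono_null hsub hμ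
      exact h (by simp [Measure.real, this])
  choose r hr0 hr1 hr2 using hrep
  have hx0 : ∀ i, i < N → c 0 (r 0 (col i)) = col i := by
    intro i hi
    refine hr2 0 _ fun h0 => ?_
    have h1 := (hcol1 i (mem_range.2 hi)).2
    simp only [hi, if_true] at h1
    have h2 : u (col i) (t i + 1) ≤ μ.real {z | c 0 (z 0) = col i} :=
      measureReal_mono fun z hz => hz.1
    have := (mul_pos_iff_of_pos_left hN').1 h1
    linarith
  have hx1 : ∀ i, i < N → c 1 (r 1 (t i)) = t i := by
    intro i hi
    refine hr2 1 _ fun h0 => ?_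
    have h1 := ht1 i hi
    have h2 : ¬ (i : ℝ) < N * H (2 ^ L) (t i) := fun h => lt_irrefl _ ((ht2 i _ hi).2 h)
    have h3 : H (2 ^ L) (t i + 1) ≤ H (2 ^ L) (t i) + μ.real {z | c 1 (z 1) = t i} := by
      refine le_trans (measureReal_mono ?_) (measureReal_union_le _ _)
      intro z hz
      simp only [Set.mem_ofPred_eq, Set.mem_union] at hz ⊢
      omega
    have := mul_le_mul_of_nonneg_left h3 hN'.le
    rw [h0] at this
    linarith
  have hgrid : ∀ a b : ℕ, a ≤ 2 ^ L →
      |(((range N).filter (fun i => col i < a ∧ t i < b)).card : ℝ) - N * H a b| ≤ L + 1 := by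
    intro a b ha
    set n := ⌈N * H (2 ^ L) b⌉₊ with hn
    have hnN : n ≤ N := by
      rw [hn, Nat.ceil_le]
      have : H (2 ^ L) b ≤ 1 := measureReal_le_one
      nlinarith
    have hiff : ∀ i, i < N → (t i < b ↔ i < n) := fun i hi => by
      rw [ht2 i b hi, hn, Nat.lt_ceil]
    obtain ⟨h1, h2⟩ := hcol2 n (fun k => N * u k b) (fun k => mul_nonneg hN'.le (hu0 k b))
      (fun k i hi => by
        have hi' : i < N := by omega
        simp only [hi', if_true]
        exact mul_le_mul_of_nonneg_left (humono _ _ _ ((hiff i hi').2 hi)) hN'.le) a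
    have e1 : (range N).filter (fun i => col i < a ∧ t i < b)
        = (range N).filter (fun i => i < n ∧ col i < a) :=
      Finset.filter_congr fun i hi => by rw [hiff i (mem_range.1 hi), and_comm]
    have e2 : (((range N).filter (fun i => i < n ∧ col i < a)).card : ℝ)
        + ((range N).filter (fun i => i < n ∧ ¬ col i < a)).card = n := by
      rw [← Finset.filter_filter, ← Finset.filter_filter]
      have : (range N).filter (· < n) = range n := by
        ext x; simp only [mem_filter, mem_range]; omega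
      rw [this]
      exact_mod_cast (Finset.card_filter_add_card_filter_not (s := range n) _).trans (card_range n)
    have e3 : ∑ k ∈ range (2 ^ L), (if k < a then N * u k b else 0) = N * H a b := by
      rw [← Finset.sum_filter, hHu, Finset.mul_sum]
      congr 1
      ext x; simp only [mem_filter, mem_range]; omega
    have e4 : ∑ k ∈ range (2 ^ L), (if k < a then N * u k b else 0)
        + ∑ k ∈ range (2 ^ L), (if k < a then 0 else N * u k b) = N * H (2 ^ L) b := by
      rw [← Finset.sum_add_distrib, hHu, Finset.mul_sum]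
      refine Finset.sum_congr rfl fun k _ => ?_
      split_ifs <;> simp
    have e5 : N * H (2 ^ L) b ≤ n := Nat.le_ceil _
    rw [e1, abs_le]
    constructor <;> linarith
  refine ⟨fun i => ![r 0 (col i), r 1 (t i)], fun i => ⟨fun j => ?_, fun j => ?_⟩, fun A hA => ?_⟩
  · fin_cases j
    · exact hr0 _ _
    · exact hr0 _ _
  · fin_cases j
    · exact hr1 _ _
    · exact hr1 _ _
  · choose a b ha hb h1 h2 h3 using fun j => hc j (A j) (hA j)
    have hstrip : ∀ j, μ.real {z : Fin 2 → ℝ | a j ≤ c j (z j) ∧ c j (z j) < b j} ≤ 1 / N := by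
      intro j
      have h := h3 j
      rw [map_measureReal_apply (measurable_pi_apply j)
        ((measurableSet_le measurable_const (hcm j)).inter
          (measurableSet_lt (hcm j) measurable_const))] at h
      exact h
    have hdiff : H (b 0) (b 1) ≤ H (a 0) (a 1) + 2 / N := by
      have hsub : {z : Fin 2 → ℝ | c 0 (z 0) < b 0 ∧ c 1 (z 1) < b 1}
          ⊆ {z | c 0 (z 0) < a 0 ∧ c 1 (z 1) < a 1}
            ∪ ({z | a 0 ≤ c 0 (z 0) ∧ c 0 (z 0) < b 0} ∪ {z | a 1 ≤ c 1 (z 1) ∧ c 1 (z 1) < b 1}) := by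
        intro z hz
        simp only [Set.mem_ofPred_eq, Set.mem_union] at hz ⊢
        omega
      refine (measureReal_mono hsub).trans ((measureReal_union_le _ _).trans ?_)
      refine add_le_add le_rfl ((measureReal_union_le _ _).trans ?_)
      have := hstrip 0
      have := hstrip 1
      have : (2 : ℝ) / N = 1 / N + 1 / N := by ring
      linarith
    have hl : H (a 0) (a 1) ≤ μ.real {z | ∀ j, z j ∈ A j} :=
      measureReal_mono fun z hz => Fin.forall_fin_two.2 ⟨h1 0 _ hz.1, h1 1 _ hz.2⟩
    have hu' : μ.real {z : Fin 2 → ℝ | ∀ j, z j ∈ A j} ≤ H (b 0) (b 1) :=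
      measureReal_mono fun z hz => ⟨h2 0 _ (hz 0), h2 1 _ (hz 1)⟩
    have g1 := hgrid (a 0) (a 1) ((ha 0).trans hL)
    have g2 := hgrid (b 0) (b 1) ((hb 0).trans hL)
    have c1 : (((range N).filter (fun i => col i < a 0 ∧ t i < a 1)).card : ℝ)
        ≤ ((range N).filter (fun i => ∀ j, ![r 0 (col i), r 1 (t i)] j ∈ A j)).card := by
      refine Nat.cast_le.2 (Finset.card_le_card fun i hi => ?_)
      rw [mem_filter] at hi ⊢
      have hi' := mem_range.1 hi.1
      refine ⟨hi.1, Fin.forall_fin_two.2 ⟨h1 0 _ ?_, h1 1 _ ?_⟩⟩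
      · simpa [hx0 i hi'] using hi.2.1
      · simpa [hx1 i hi'] using hi.2.2
    have c2 : (((range N).filter (fun i => ∀ j, ![r 0 (col i), r 1 (t i)] j ∈ A j)).card : ℝ)
        ≤ ((range N).filter (fun i => col i < b 0 ∧ t i < b 1)).card := by
      refine Nat.cast_le.2 (Finset.card_le_card fun i hi => ?_)
      rw [mem_filter] at hi ⊢
      have hi' := mem_range.1 hi.1
      refine ⟨hi.1, ?_, ?_⟩
      · rw [← hx0 i hi']; exact h2 0 _ (hi.2 0)
      · rw [← hx1 i hi']; exact h2 1 _ (hi.2 1)
    have m1 := mul_le_mul_of_nonneg_left hdiff hN'.le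
    have m2 := mul_le_mul_of_nonneg_left hl hN'.le
    have m3 := mul_le_mul_of_nonneg_left hu' hN'.le
    have m4 : (N : ℝ) * (2 / N) = 2 := by field_simp
    rw [mul_add, m4] at m1
    rw [abs_le] at g1 g2 ⊢
    constructor <;> linarith [g1.1, g2.2]

end Pool.Agent.MP_507a17_nt.H70
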