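import Pool.Agent.MP_507a17_nt.H70.Grid
import Pool.Agent.MP_507a17_nt.H70.Bracket

/-!
Finite blocks for a measure on the cube and their concatenation.
-/

set_option autoImplicit false
open MeasureTheory Finset
open Classical

namespace Pool.Agent.MP_507a17_nt.H70

theorem block (e : ℕ) : ∃ C : ℝ, 0 ≤ C ∧ ∀ (μ : Measure (Fin (e + 1) → ℝ)) [IsProbabilityMeasure μ],
    μ (Set.Icc (0 : Fin (e + 1) → ℝ) 1)ᶜ = 0 → ∀ s : ℕ, 1 ≤ s →
    ∃ Y : ℕ → (Fin (e + 1) → ℝ), (∀ i, Y i ∈ Set.Icc (0 : Fin (e + 1) → ℝ) 1) ∧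
      ∀ A : Fin (e + 1) → Set ℝ, (∀ j, IsLowerSet (A j)) → ∀ n : ℕ, n ≤ 2 ^ s →
        |(∑ i ∈ range n, if ∀ j, Y i j ∈ A j then (1 : ℝ) else 0)
          - n * μ.real {z | ∀ j, z j ∈ A j}| ≤ C * (s : ℝ) ^ (e + 1) := by
  refine ⟨2 * 4 ^ e * (120 * (1 + 3 * (e + 1)) + 4 * (e + 1)) + 1 + (e + 1), by positivity, ?_⟩
  intro μ _ hμ s hs
  have hL : 2 * 2 ^ s + 1 ≤ 2 ^ (s + 2) := by
    have : 0 < 2 ^ s := by positivity
    rw [pow_add]; omega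
  obtain ⟨m, rep, hm0, hm1, hrep, hA⟩ := discretize (e + 1) μ hμ (2 ^ s) (s + 2) (by positivity) hL
  obtain ⟨Y, hY0, hY⟩ := grid_sequence (s + 2) e s m hm0 hm1
  refine ⟨fun i => rep (Y i), fun i => hrep _, fun A hlow n hn => ?_⟩
  obtain ⟨a, b, h1, h2, h3, h4⟩ := hA A hlow
  have ea := hY a n hn
  have eb := hY b n hn
  set E : ℝ := 2 * (((s + 2 : ℕ) : ℝ) + 1) ^ e *
    (120 * ((s + (s + 2) * (e + 1) : ℕ) : ℝ) + ((s + 2 + 1) * (e + 1) : ℕ)) + 1 with hE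
  have hlo : (∑ i ∈ range n, if ∀ j, (Y i j : ℕ) < a j then (1 : ℝ) else 0)
      ≤ ∑ i ∈ range n, if ∀ j, rep (Y i) j ∈ A j then (1 : ℝ) else 0 := by
    refine Finset.sum_le_sum fun i hi => ?_
    have hi' := hY0 i (lt_of_lt_of_le (mem_range.1 hi) hn)
    by_cases h : ∀ j, (Y i j : ℕ) < a j
    · rw [if_pos h, if_pos (h1 _ hi' h)]
    · rw [if_neg h]; split_ifs <;> norm_num
  have hhi : (∑ i ∈ range n, if ∀ j, rep (Y i) j ∈ A j then (1 : ℝ) else 0)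
      ≤ ∑ i ∈ range n, if ∀ j, (Y i j : ℕ) < b j then (1 : ℝ) else 0 := by
    refine Finset.sum_le_sum fun i hi => ?_
    have hi' := hY0 i (lt_of_lt_of_le (mem_range.1 hi) hn)
    by_cases h : ∀ j, rep (Y i) j ∈ A j
    · rw [if_pos h, if_pos (h2 _ hi' h)]
    · rw [if_neg h]; split_ifs <;> norm_num
  have hn0 : (0 : ℝ) ≤ n := by positivity
  have hK : (0 : ℝ) < ((2 ^ s : ℕ) : ℝ) := by positivity
  have hnd : (n : ℝ) * (((e + 1 : ℕ) : ℝ) / ((2 ^ s : ℕ) : ℝ)) ≤ e + 1 := by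
    have hn' : (n : ℝ) ≤ ((2 ^ s : ℕ) : ℝ) := by exact_mod_cast hn
    rw [mul_div_assoc', div_le_iff₀ hK]
    push_cast at hn' ⊢
    nlinarith [Nat.cast_nonneg (α := ℝ) e]
  have h3' := mul_le_mul_of_nonneg_left h3 hn0
  have h4' := mul_le_mul_of_nonneg_left h4 hn0
  have hfin : |(∑ i ∈ range n, if ∀ j, rep (Y i) j ∈ A j then (1 : ℝ) else 0)
          - n * μ.real {z | ∀ j, z j ∈ A j}| ≤ E + (e + 1) := by
    rw [abs_le] at ea eb ⊢
    constructor <;> nlinarith [ea.1, eb.2]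
  refine hfin.trans ?_
  have hs' : (1 : ℝ) ≤ s := by exact_mod_cast hs
  have he0 : (0 : ℝ) ≤ e := by positivity
  have p1 : (1 : ℝ) ≤ (s : ℝ) ^ (e + 1) := one_le_pow₀ hs'
  have p2 : (((s + 2 : ℕ) : ℝ) + 1) ^ e ≤ 4 ^ e * (s : ℝ) ^ e := by
    rw [← mul_pow]
    refine pow_le_pow_left₀ (by positivity) ?_ e
    push_cast; linarith
  have p3 : (120 * ((s + (s + 2) * (e + 1) : ℕ) : ℝ) + ((s + 2 + 1) * (e + 1) : ℕ))
      ≤ (120 * (1 + 3 * (e + 1)) + 4 * (e + 1)) * s := by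
    push_cast; nlinarith
  have p4 : 2 * (((s + 2 : ℕ) : ℝ) + 1) ^ e *
      (120 * ((s + (s + 2) * (e + 1) : ℕ) : ℝ) + ((s + 2 + 1) * (e + 1) : ℕ))
      ≤ 2 * (4 ^ e * (s : ℝ) ^ e) * ((120 * (1 + 3 * (e + 1)) + 4 * (e + 1)) * s) :=
    mul_le_mul (by linarith) p3 (by positivity) (by positivity)
  have p5 : 2 * (4 ^ e * (s : ℝ) ^ e) * ((120 * (1 + 3 * (e + 1)) + 4 * (e + 1)) * s)
      = 2 * 4 ^ e * (120 * (1 + 3 * (e + 1)) + 4 * (e + 1)) * (s : ℝ) ^ (e + 1) := by ring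
  rw [hE]
  nlinarith

/-- Concatenation of finite blocks of doubly exponentially growing length. -/
theorem concat {X T : Type} (f : T → X → ℝ) (hf : ∀ t x, |f t x| ≤ 1) (d : ℕ) (hd : 1 ≤ d) (C : ℝ)
    (hC : 0 ≤ C) (Y : ℕ → ℕ → X)
    (hY : ∀ j t n, n ≤ 2 ^ 2 ^ (j + 1) →
      |∑ i ∈ range n, f t (Y j i)| ≤ C * ((2 : ℝ) ^ (j + 1)) ^ d) :
    ∃ x : ℕ → X, (∀ n, ∃ j i, x n = Y j i) ∧ ∀ t N, 2 ≤ N →
      |∑ i ∈ range N, f t (x i)| ≤ (2 * C * 2 ^ d + 2) * 2 ^ d * Real.log N ^ d := by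
  set J : ℕ → ℕ := fun n => Nat.log 2 (Nat.log 2 n) with hJ
  set x : ℕ → X := fun n => Y (J n) (n - 2 ^ 2 ^ J n) with hx
  have hJeq : ∀ j n, 2 ^ 2 ^ j ≤ n → n < 2 ^ 2 ^ (j + 1) → J n = j := by
    intro j n h1 h2
    have hn : n ≠ 0 := by
      have : 0 < 2 ^ 2 ^ j := by positivity
      omega
    have a1 : 2 ^ j ≤ Nat.log 2 n := (Nat.le_log_iff_pow_le (by norm_num) hn).2 h1
    have a2 : Nat.log 2 n < 2 ^ (j + 1) := (Nat.log_lt_iff_lt_pow (by norm_num) hn).2 h2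
    exact Nat.log_eq_of_pow_le_of_lt_pow a1 a2
  have hstep : ∀ t j n, 2 ^ 2 ^ j ≤ n → n ≤ 2 ^ 2 ^ (j + 1) →
      |∑ i ∈ range n, f t (x i)| ≤ |∑ i ∈ range (2 ^ 2 ^ j), f t (x i)|
        + C * ((2 : ℝ) ^ (j + 1)) ^ d := by
    intro t j n h1 h2
    obtain ⟨r, rfl⟩ : ∃ r, n = 2 ^ 2 ^ j + r := ⟨n - 2 ^ 2 ^ j, by omega⟩
    rw [Finset.sum_range_add]
    refine (abs_add_le _ _).trans (add_le_add le_rfl ?_)
    have : ∑ i ∈ range r, f t (x (2 ^ 2 ^ j + i)) = ∑ i ∈ range r, f t (Y j i) := by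
      refine Finset.sum_congr rfl fun i hi => ?_
      have hj := hJeq j (2 ^ 2 ^ j + i) (by omega) (by have := mem_range.1 hi; omega)
      simp only [hx, hj, Nat.add_sub_cancel_left]
    rw [this]
    exact hY j t r ((Nat.le_add_left _ _).trans h2)
  have h2d : (2 : ℝ) ≤ 2 ^ d := by
    calc (2 : ℝ) = 2 ^ 1 := by norm_num
      _ ≤ 2 ^ d := pow_le_pow_right₀ (by norm_num) hd
  have hmono : ∀ j, 2 ^ 2 ^ j ≤ 2 ^ 2 ^ (j + 1) := fun j =>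
    Nat.pow_le_pow_right (by norm_num) (Nat.pow_le_pow_right (by norm_num) (Nat.le_succ j))
  have hnode : ∀ t j, |∑ i ∈ range (2 ^ 2 ^ j), f t (x i)| ≤ (C * 2 ^ d + 2) * ((2 : ℝ) ^ j) ^ d := by
    intro t j
    induction j with
    | zero =>
      simp only [pow_zero, pow_one, one_pow, mul_one, Finset.sum_range_succ, range_zero,
        sum_empty, zero_add]
      have := abs_add_le (f t (x 0)) (f t (x 1))
      have := hf t (x 0)
      have := hf t (x 1)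
      have : 0 ≤ C * 2 ^ d := by positivity
      linarith
    | succ j ih =>
      refine (hstep t j _ (hmono j) le_rfl).trans ?_
      have e : ((2 : ℝ) ^ (j + 1)) ^ d = 2 ^ d * ((2 : ℝ) ^ j) ^ d := by
        rw [pow_succ, mul_pow, mul_comm]
      rw [e]
      have hp : (0 : ℝ) ≤ ((2 : ℝ) ^ j) ^ d := by positivity
      have hq : 0 ≤ C * 2 ^ d := by positivity
      have : (C * 2 ^ d + 2) * ((2 : ℝ) ^ j) ^ d + C * (2 ^ d * ((2 : ℝ) ^ j) ^ d)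
          ≤ (C * 2 ^ d + 2) * (2 ^ d * ((2 : ℝ) ^ j) ^ d) := by
        have : (C * 2 ^ d + 2) + C * 2 ^ d ≤ (C * 2 ^ d + 2) * 2 ^ d := by nlinarith
        nlinarith
      linarith
  refine ⟨x, fun n => ⟨_, _, rfl⟩, fun t N hN => ?_⟩
  have hN0 : N ≠ 0 := by omega
  have hl0 : Nat.log 2 N ≠ 0 := by
    have : 1 ≤ Nat.log 2 N := (Nat.le_log_iff_pow_le (by norm_num) hN0).2 (by simpa using hN)
    omega
  have b1 : 2 ^ J N ≤ Nat.log 2 N := Nat.pow_log_le_self 2 hl0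
  have b2 : Nat.log 2 N < 2 ^ (J N + 1) := Nat.lt_pow_succ_log_self (by norm_num) _
  have c1 : 2 ^ 2 ^ J N ≤ N := (Nat.le_log_iff_pow_le (by norm_num) hN0).1 b1
  have c2 : N < 2 ^ 2 ^ (J N + 1) := (Nat.log_lt_iff_lt_pow (by norm_num) hN0).1 b2
  have h1 := hstep t (J N) N c1 c2.le
  have h2 := hnode t (J N)
  have e : ((2 : ℝ) ^ (J N + 1)) ^ d = 2 ^ d * ((2 : ℝ) ^ J N) ^ d := by
    rw [pow_succ, mul_pow, mul_comm]
  have hlog : (2 : ℝ) ^ J N ≤ 2 * Real.log N := by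
    have c1' : (2 : ℝ) ^ (2 ^ J N : ℕ) ≤ N := by exact_mod_cast c1
    have := Real.log_le_log (by positivity) c1'
    rw [Real.log_pow] at this
    push_cast at this
    have h2 := Real.log_two_gt_d9
    have hp : (0 : ℝ) < 2 ^ J N := by positivity
    nlinarith
  have hpow : ((2 : ℝ) ^ J N) ^ d ≤ 2 ^ d * Real.log N ^ d := by
    rw [← mul_pow]; exact pow_le_pow_left₀ (by positivity) hlog d
  have hq : 0 ≤ C * 2 ^ d := by positivity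
  calc |∑ i ∈ range N, f t (x i)| ≤ (2 * C * 2 ^ d + 2) * ((2 : ℝ) ^ J N) ^ d := by
        rw [e] at h1; nlinarith
    _ ≤ (2 * C * 2 ^ d + 2) * (2 ^ d * Real.log N ^ d) :=
        mul_le_mul_of_nonneg_left hpow (by positivity)
    _ = _ := by ring

theorem sequence (d : ℕ) (hd : 1 ≤ d) : ∃ C : ℝ, ∀ (μ : Measure (Fin d → ℝ)),
    IsProbabilityMeasure μ → μ (Set.Icc (0 : Fin d → ℝ) 1)ᶜ = 0 →
    ∃ x : ℕ → (Fin d → ℝ), (∀ n, x n ∈ Set.Icc (0 : Fin d → ℝ) 1) ∧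
      ∀ N : ℕ, 2 ≤ N → ∀ A : Fin d → Set ℝ, (∀ j, IsLowerSet (A j)) →
        |(∑ i ∈ range N, if ∀ j, x i j ∈ A j then (1 : ℝ) else 0)
          - N * μ.real {z | ∀ j, z j ∈ A j}| ≤ C * Real.log N ^ d := by
  obtain ⟨e, rfl⟩ : ∃ e, d = e + 1 := ⟨d - 1, by omega⟩
  obtain ⟨C, hC, hblock⟩ := block e
  refine ⟨(2 * C * 2 ^ (e + 1) + 2) * 2 ^ (e + 1), fun μ _ hμ => ?_⟩
  choose Y hY0 hY using fun j : ℕ => hblock μ hμ (2 ^ (j + 1)) Nat.one_le_two_pow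
  set f : {A : Fin (e + 1) → Set ℝ // ∀ j, IsLowerSet (A j)} → (Fin (e + 1) → ℝ) → ℝ :=
    fun A z => (if ∀ j, z j ∈ A.1 j then (1 : ℝ) else 0) - μ.real {z | ∀ j, z j ∈ A.1 j} with hf
  have hsum : ∀ A (y : ℕ → Fin (e + 1) → ℝ) n, ∑ i ∈ range n, f A (y i)
      = (∑ i ∈ range n, if ∀ j, y i j ∈ A.1 j then (1 : ℝ) else 0)
          - n * μ.real {z | ∀ j, z j ∈ A.1 j} := by
    intro A y n
    simp only [hf, Finset.sum_sub_distrib, Finset.sum_const, card_range, nsmul_eq_mul]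
  obtain ⟨x, hx0, hx⟩ := concat f (fun A z => by
      have a : 0 ≤ μ.real {z | ∀ j, z j ∈ A.1 j} := measureReal_nonneg
      have b : μ.real {z | ∀ j, z j ∈ A.1 j} ≤ 1 := measureReal_le_one
      simp only [hf]
      rw [abs_le]
      split_ifs <;> constructor <;> linarith) (e + 1) hd C hC Y (fun j A n hn => by
      rw [hsum]
      have := hY j A.1 A.2 n hn
      push_cast at this
      exact this)
  refine ⟨x, fun n => ?_, fun N hN A hA => ?_⟩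
  · obtain ⟨j, i, h⟩ := hx0 n
    rw [h]; exact hY0 j i
  · have := hx ⟨A, hA⟩ N hN
    rw [hsum] at this
    exact this

end Pool.Agent.MP_507a17_nt.H70
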